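import Pool.Agent.Work.MP_47bae8_ab.Main

set_option autoImplicit false

namespace Pool.Agent.Work.MP_47bae8_ab

open Pool.Agent.Work.MP_47bae8_lc

variable {A : Type}

/-- The cascade lemma for a class of languages. -/
theorem cascade' {C : Set (List A) → Prop} (h0 : C ∅) (hl : ∀ a, C {[a]})
    (hc : ∀ L, C L → C Lᶜ) (hu : ∀ L M, C L → C M → C (L ∪ M))
    (hm : ∀ L M, C L → C M → C (conc L M)) {Q : Type} [Finite Q] {δ : Q → A → Q}
    (h : ∀ q q', C {w : List A | w.foldl δ q = q'}) {K : Set (List (A × Q))}
    (hK : SF K) (q : Q) : C {w : List A | lb δ q w ∈ K} := by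
  classical
  have hI : ∀ f : Q → Set (List A), (∀ i, C (f i)) → C (⋃ i, f i) := by
    intro f hf
    have := Fintype.ofFinite Q
    have : ∀ s : Finset Q, C (⋃ i ∈ s, f i) := by
      intro s
      induction s using Finset.induction with
      | empty => simpa using h0
      | insert i s hi ih =>
        rw [Finset.set_biUnion_insert]
        exact hu _ _ (hf i) ih
    simpa using this Finset.univ
  induction hK generalizing q with
  | empty => simpa using h0
  | letter p =>
    obtain ⟨a, q0⟩ := p
    by_cases hq : q0 = q
    · convert hl a using 1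
      ext w
      simp only [Set.mem_setOf_eq, Set.mem_singleton_iff]
      rcases w with _ | ⟨b, _ | ⟨c, w⟩⟩
      · simp [lb]
      · simp [lb, hq]
      · simp [lb]
    · convert h0 using 1
      ext w
      simp only [Set.mem_setOf_eq, Set.mem_singleton_iff, Set.mem_empty_iff_false, iff_false]
      rcases w with _ | ⟨b, _ | ⟨c, w⟩⟩
      · simp [lb]
      · simp only [lb, List.cons.injEq, Prod.mk.injEq, and_true, not_and]
        exact fun _ h => hq h.symm
      · simp [lb]
  | compl _ ih => exact hc _ (ih q)
  | union _ _ ih ih' => exact hu _ _ (ih q) (ih' q)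
  | @conc K₁ K₂ _ _ ih ih' =>
    have hi : ∀ L M, C L → C M → C (L ∩ M) := by
      intro L M h h'
      have := hc _ (hu _ _ (hc _ h) (hc _ h'))
      rwa [Set.compl_union, compl_compl, compl_compl] at this
    have := hI _ (fun q' : Q => hm _ _ (hi _ _ (ih q) (h q q')) (ih' q'))
    convert this using 1
    ext w
    simp only [Set.mem_setOf_eq, mem_conc, Set.mem_iUnion, Set.mem_inter_iff]
    constructor
    · rintro ⟨s, hs, t, ht, hw⟩
      obtain ⟨u, v, rfl, rfl, rfl⟩ := lb_split hw
      exact ⟨u.foldl δ q, u, ⟨hs, rfl⟩, v, ht, rfl⟩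
    · rintro ⟨q', u, ⟨hu, rfl⟩, v, hv, rfl⟩
      exact ⟨_, hu, _, hv, lb_append δ q u v⟩

variable [DecidableEq A]

lemma CSF.empty [Nonempty A] : CSF (∅ : Set (List A)) := by
  obtain ⟨a⟩ := ‹Nonempty A›
  have := ((CSF.letter a).compl.union (CSF.letter a)).compl
  rwa [Set.compl_union_self, Set.compl_univ] at this

lemma CSF.inter {L M : Set (List A)} (h : CSF L) (h' : CSF M) : CSF (L ∩ M) := by
  have := (h.compl.union h'.compl).compl
  rwa [Set.compl_union, compl_compl, compl_compl] at this

lemma CSF.biInter [Nonempty A] {ι : Type*} (s : Finset ι) {f : ι → Set (List A)}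
    (h : ∀ i ∈ s, CSF (f i)) : CSF (⋂ i ∈ s, f i) := by
  classical
  induction s using Finset.induction with
  | empty => simpa using (CSF.empty (A := A)).compl
  | insert i s hi ih =>
    rw [Finset.set_biInter_insert]
    exact (h i (Finset.mem_insert_self i s)).inter
      (ih (fun j hj => h j (Finset.mem_insert_of_mem hj)))

/-- A language with a representation belongs to the class. -/
theorem Rep.csf [Finite A] [Nonempty A] {m : ℕ} [NeZero m] {L : Set (List A)} (h : Rep m L) :
    CSF L := by
  classical
  obtain ⟨K, hK, hL⟩ := h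
  have := Fintype.ofFinite A
  have h1 := cascade' (C := fun L : Set (List A) => CSF L) CSF.empty CSF.letter
    (fun _ h => h.compl) (fun _ _ h h' => h.union h') (fun _ _ h h' => h.conc h')
    (δ := cnt m) ?_ hK 0
  · convert h1 using 1
    ext w
    exact hL w
  · intro q q'
    have h2 := CSF.biInter Finset.univ (f := fun a : A => {w : List A | w.count a % m =
      (q' a - q a).val}) (fun a _ => CSF.count a m _ (Nat.pos_of_ne_zero (NeZero.ne m)))
    convert h2 using 1
    ext w
    simp only [Set.mem_setOf_eq, Finset.mem_univ, Set.iInter_true, Set.mem_iInter]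
    rw [funext_iff]
    refine forall_congr' fun a => ?_
    rw [cnt_foldl, ← ZMod.val_natCast]
    constructor
    · rintro h
      congr 1
      rw [← h]
      ring
    · intro h
      have := ZMod.val_injective m h
      rw [this]
      ring

/-- The kernel condition: the syntactic monoid is finite, and for some `m > 0` the images of the
words in which the number of occurrences of every letter is divisible by `m` are aperiodic
elements. -/
def KerAp (L : Set (List A)) : Prop :=
  Finite (Syn L) ∧ ∃ m N : ℕ, 0 < m ∧ ∀ w : List A, (∀ a, m ∣ w.count a) →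
    (η L (FreeMonoid.ofList w)) ^ (N + 1) = (η L (FreeMonoid.ofList w)) ^ N

/-- The automaton on labelled words. -/
noncomputable def dl (m : ℕ) {S : Type} [Monoid S] (f : A → S) :
    Option ((A → ZMod m) × S) → A × (A → ZMod m) → Option ((A → ZMod m) × S)
  | none, _ => none
  | some (g, s), p => by
      classical exact if g = p.2 then some (g + Pi.single p.1 1, s * f p.1) else none

lemma dl_none {m : ℕ} {S : Type} [Monoid S] (f : A → S) (w : List (A × (A → ZMod m))) :
    w.foldl (dl m f) none = none := by
  induction w with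
  | nil => rfl
  | cons p w ih => exact ih

lemma dl_some {m : ℕ} {S : Type} [Monoid S] (f : A → S) {w : List (A × (A → ZMod m))}
    {g g' : A → ZMod m} {s s' : S} (h : w.foldl (dl m f) (some (g, s)) = some (g', s')) :
    w = lb (cnt m) g (w.map Prod.fst) ∧ g' = (w.map Prod.fst).foldl (cnt m) g ∧
      s' = s * ((w.map Prod.fst).map f).prod := by
  induction w generalizing g s with
  | nil =>
    simp only [List.foldl_nil, Option.some.injEq, Prod.mk.injEq] at h
    simp [lb, h.1, h.2]
  | cons p w ih =>
    obtain ⟨a, k⟩ := p
    rw [List.foldl_cons] at h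
    by_cases hg : g = k
    · subst hg
      have e : dl m f (some (g, s)) (a, g) = some (g + Pi.single a 1, s * f a) := by
        simp [dl]
      rw [e] at h
      obtain ⟨h1, h2, h3⟩ := ih h
      refine ⟨?_, ?_, ?_⟩
      · simp only [List.map_cons, lb, List.cons.injEq, true_and]
        exact h1
      · exact h2
      · simp only [List.map_cons, List.prod_cons]
        rw [← mul_assoc]
        exact h3
    · have e : dl m f (some (g, s)) (a, k) = none := by
        simp [dl, hg]
      rw [e, dl_none] at h
      simp at h

lemma dl_lb {m : ℕ} {S : Type} [Monoid S] (f : A → S) (w : List A) (g : A → ZMod m) (s : S) :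
    (lb (cnt m) g w).foldl (dl m f) (some (g, s)) =
      some (w.foldl (cnt m) g, s * (w.map f).prod) := by
  induction w generalizing g s with
  | nil => simp [lb]
  | cons a w ih =>
    have e : dl m f (some (g, s)) (a, g) = some (cnt m g a, s * f a) := by
      simp [dl, cnt]
    simp only [lb, List.foldl_cons, e, ih, List.map_cons, List.prod_cons, mul_assoc]

lemma dl_iter_none {m : ℕ} {S : Type} [Monoid S] (f : A → S) (w : List (A × (A → ZMod m)))
    (n : ℕ) : (fun q => w.foldl (dl m f) q)^[n] none = none := by
  induction n with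
  | zero => rfl
  | succ n ih => rw [Function.iterate_succ_apply, dl_none, ih]

lemma dl_cf {m : ℕ} {S : Type} [Monoid S] (f : A → S) (N : ℕ)
    (hN : ∀ w : List A, (∀ a, m ∣ w.count a) →
      ((w.map f).prod) ^ (N + 1) = ((w.map f).prod) ^ N) : CF (dl m f) := by
  intro w n q hn hq
  rcases q with _ | ⟨g, s⟩
  · exact dl_none _ _
  rcases w with _ | ⟨p, w⟩
  · rfl
  obtain ⟨n, rfl⟩ : ∃ k, n = k + 1 := ⟨n - 1, by omega⟩
  rcases hq1 : (p :: w).foldl (dl m f) (some (g, s)) with _ | ⟨g1, s1⟩
  · rw [Function.iterate_succ_apply, hq1, dl_iter_none] at hq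
    simp at hq
  obtain ⟨h1, h2, h3⟩ := dl_some f hq1
  have hg : g1 = g := by
    rcases n with _ | n
    · simp only [zero_add, Function.iterate_one] at hq
      rw [hq1] at hq
      simp only [Option.some.injEq, Prod.mk.injEq] at hq
      exact hq.1
    · rw [Function.iterate_succ_apply, hq1, Function.iterate_succ_apply] at hq
      rcases hq2 : (p :: w).foldl (dl m f) (some (g1, s1)) with _ | ⟨g2, s2⟩
      · rw [hq2, dl_iter_none] at hq
        simp at hq
      · obtain ⟨h4, -, -⟩ := dl_some f hq2
        simp only [List.map_cons, lb, List.cons.injEq] at h1 h4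
        have h5 : p.2 = g := by rw [h1.1]
        have h6 : p.2 = g1 := by rw [h4.1]
        rw [← h6, h5]
  subst hg
  have hdiv : ∀ a, m ∣ ((p :: w).map Prod.fst).count a := by
    intro a
    have h4 := congrFun h2 a
    rw [cnt_foldl] at h4
    have h5 : ((((p :: w).map Prod.fst).count a : ℕ) : ZMod m) = 0 := by
      have : g1 a + 0 = g1 a + ((((p :: w).map Prod.fst).count a : ℕ) : ZMod m) := by
        rw [add_zero]
        exact h4
      exact (add_left_cancel this).symm
    exact (ZMod.natCast_eq_zero_iff _ _).1 h5
  have hst := hN _ hdiv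
  set σ := (((p :: w).map Prod.fst).map f).prod with hσ
  have hread : ∀ s, (p :: w).foldl (dl m f) (some (g1, s)) = some (g1, s * σ) := by
    intro s
    rw [h1, dl_lb, ← h2]
  have hit : ∀ k s, (fun q => (p :: w).foldl (dl m f) q)^[k] (some (g1, s)) =
      some (g1, s * σ ^ k) := by
    intro k
    induction k with
    | zero => intro s; simp
    | succ k ih =>
      intro s
      rw [Function.iterate_succ_apply, hread, ih, mul_assoc, ← pow_succ']
  rw [hit] at hq
  simp only [Option.some.injEq, Prod.mk.injEq, true_and] at hq
  have h6 : ∀ k, s * (σ ^ (n + 1)) ^ k = s := by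
    intro k
    induction k with
    | zero => simp
    | succ k ih => rw [pow_succ', ← mul_assoc, hq, ih]
  have h7 : s = s * σ ^ ((n + 1) * N) := by rw [pow_mul, h6]
  have h8 : s * σ = s := by
    have h9 : N ≤ (n + 1) * N := Nat.le_mul_of_pos_left N (by omega)
    calc s * σ = s * σ ^ ((n + 1) * N) * σ := by rw [← h7]
      _ = s * σ ^ ((n + 1) * N + 1) := by rw [mul_assoc, ← pow_succ]
      _ = s * σ ^ ((n + 1) * N) := by
        rw [pow_stab' hst (k := (n + 1) * N + 1) (l := (n + 1) * N) (by omega) h9]
      _ = s := h7.symm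
  rw [← hq1, hread, h8]

/-- The kernel condition gives a representation. -/
theorem KerAp.rep [Finite A] {L : Set (List A)} (h : KerAp L) : ∃ m, 0 < m ∧ Rep m L := by
  obtain ⟨hfin, m, N, hm, hN⟩ := h
  have : NeZero m := ⟨hm.ne'⟩
  have hcf : CF (dl m (fun a => η L (FreeMonoid.of a))) := by
    apply dl_cf _ N
    intro w hw
    rw [← η_ofList]
    exact hN w hw
  refine ⟨m, hm, _, SF.of_cf hcf (some (0, 1))
    {q | ∃ g, ∃ w ∈ L, q = some (g, η L (FreeMonoid.ofList w))}, ?_⟩
  intro w
  rw [Set.mem_setOf_eq, dl_lb, one_mul, ← η_ofList]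
  constructor
  · intro hw
    exact ⟨_, w, hw, rfl⟩
  · rintro ⟨g, v, hv, h⟩
    simp only [Option.some.injEq, Prod.mk.injEq] at h
    have h4 := (Con.eq _).1 h.2 [] []
    simp only [List.nil_append, List.append_nil, FreeMonoid.toList_ofList] at h4
    exact h4.2 hv

/-- A representation gives the kernel condition. -/
theorem Rep.kerAp [Finite A] {m : ℕ} [NeZero m] {L : Set (List A)} (h : Rep m L) : KerAp L := by
  obtain ⟨K, hK, hL⟩ := h
  obtain ⟨M, _, _, N, hN, φ, X, hX⟩ := hK.ap
  let h : (A → ZMod m) → List A → M := fun g w => ((lb (cnt m) g w).map φ).prod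
  have h_app : ∀ g u v, h g (u ++ v) = h g u * h (u.foldl (cnt m) g) v := by
    intro g u v
    simp only [h, lb_append, List.map_append, List.prod_append]
  have hmem : ∀ w, w ∈ L ↔ h 0 w ∈ X := fun w => (hL w).trans (hX _)
  have hker : ∀ u v : List A, (∀ g, h g u = h g v) → (∀ a, (u.count a : ZMod m) = v.count a) →
      η L (FreeMonoid.ofList u) = η L (FreeMonoid.ofList v) := by
    intro u v h1 h2
    refine (Con.eq _).2 ?_
    intro s t
    have h3 : ∀ g, u.foldl (cnt m) g = v.foldl (cnt m) g := by
      intro g
      funext a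
      rw [cnt_foldl, cnt_foldl, h2]
    rw [FreeMonoid.toList_ofList, FreeMonoid.toList_ofList, hmem, hmem, List.append_assoc,
      List.append_assoc, h_app, h_app, h_app, h_app, h1, h3]
  constructor
  · let F : FreeMonoid A → ((A → ZMod m) → M) × (A → ZMod m) :=
      fun u => (fun g => h g u.toList, fun a => (u.toList.count a : ZMod m))
    have hsurj : Function.Surjective (η L) := Con.mk'_surjective
    refine Finite.of_injective (fun s : Syn L => F (Function.surjInv hsurj s)) ?_
    intro s t hst
    have h1 := hker (Function.surjInv hsurj s).toList (Function.surjInv hsurj t).toList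
      (fun g => congrFun (congrArg Prod.fst hst) g) (fun a => congrFun (congrArg Prod.snd hst) a)
    rw [FreeMonoid.ofList_toList, FreeMonoid.ofList_toList, Function.surjInv_eq hsurj s,
      Function.surjInv_eq hsurj t] at h1
    exact h1
  · refine ⟨m, N, Nat.pos_of_ne_zero (NeZero.ne m), ?_⟩
    intro w hw
    have hw0 : ∀ a, (w.count a : ZMod m) = 0 := fun a => (ZMod.natCast_eq_zero_iff _ _).2 (hw a)
    have hfix : ∀ g, w.foldl (cnt m) g = g := by
      intro g
      funext a
      rw [cnt_foldl, hw0, add_zero]
    have hrep : ∀ k g, h g ((List.replicate k w).flatten) = (h g w) ^ k := by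
      intro k
      induction k with
      | zero => intro g; simp [h, lb]
      | succ k ih =>
        intro g
        rw [List.replicate_succ, List.flatten_cons, h_app, hfix, ih, pow_succ']
    have hcount : ∀ k a, (((List.replicate k w).flatten.count a : ℕ) : ZMod m) = 0 := by
      intro k a
      induction k with
      | zero => simp
      | succ k ih =>
        rw [List.replicate_succ, List.flatten_cons, List.count_append]
        push_cast
        rw [ih, hw0, add_zero]
    have hpow : ∀ k, (η L (FreeMonoid.ofList w)) ^ k =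
        η L (FreeMonoid.ofList ((List.replicate k w).flatten)) := by
      intro k
      induction k with
      | zero => exact (map_one _).symm
      | succ k ih =>
        rw [List.replicate_succ, List.flatten_cons, pow_succ', ih, ← map_mul]
        rfl
    rw [hpow, hpow]
    apply hker
    · intro g
      rw [hrep, hrep, hN]
    · intro a
      rw [hcount, hcount]

/-- The class `CSF` is described by the kernel condition. -/
theorem csf_iff_kerAp [Finite A] [Nonempty A] (L : Set (List A)) : CSF L ↔ KerAp L := by
  constructor
  · intro h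
    obtain ⟨m, hm, hr⟩ := h.rep
    have : NeZero m := ⟨hm.ne'⟩
    exact hr.kerAp
  · intro h
    obtain ⟨m, hm, hr⟩ := h.rep
    have : NeZero m := ⟨hm.ne'⟩
    exact hr.csf

end Pool.Agent.Work.MP_47bae8_ab
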