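import Pool.Agent.Work.MP_47bae8_ab.Schutz

set_option autoImplicit false

namespace Pool.Agent.Work.MP_47bae8_ab

open Pool.Agent.Work.MP_47bae8_lc

/-! ### Counter-free automata accept star-free languages -/

/-- An automaton is counter-free. -/
def CF {A Q : Type} (δ : Q → A → Q) : Prop :=
  ∀ (w : List A) (n : ℕ) (q : Q), 0 < n → (fun q => w.foldl δ q)^[n] q = q → w.foldl δ q = q

lemma iter_stab {Q : Type} [Finite Q] (g : Q → Q)
    (h : ∀ (n : ℕ) (q : Q), 0 < n → g^[n] q = q → g q = q) :
    g^[Nat.card Q + 1] = g^[Nat.card Q] := by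
  have := Fintype.ofFinite Q
  funext q
  obtain ⟨i, j, hij, he⟩ : ∃ i j : Fin (Nat.card Q + 1), i < j ∧ g^[i.1] q = g^[j.1] q := by
    have hc : Fintype.card Q < Fintype.card (Fin (Nat.card Q + 1)) := by
      rw [Fintype.card_fin, Nat.card_eq_fintype_card]
      omega
    obtain ⟨i, j, hij, he⟩ := Fintype.exists_ne_map_eq_of_card_lt
      (fun i : Fin (Nat.card Q + 1) => g^[i.1] q) hc
    rcases lt_or_gt_of_ne hij with h1 | h1
    · exact ⟨i, j, h1, he⟩
    · exact ⟨j, i, h1, he.symm⟩
  have h1 : g^[j.1 - i.1] (g^[i.1] q) = g^[i.1] q := by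
    rw [← Function.iterate_add_apply, Nat.sub_add_cancel (le_of_lt hij)]
    exact he.symm
  have h2 : g (g^[i.1] q) = g^[i.1] q := h _ _ (Nat.sub_pos_of_lt hij) h1
  have h3 : ∀ k, i.1 ≤ k → g^[k] q = g^[i.1] q := by
    intro k hk
    induction k, hk using Nat.le_induction with
    | base => rfl
    | succ k _ ih => rw [Function.iterate_succ_apply', ih, h2]
  rw [h3 (Nat.card Q + 1) (by omega), h3 (Nat.card Q) (by omega)]

/-- The transition monoid. -/
def tm {A Q : Type} (δ : Q → A → Q) : Submonoid (Function.End Q)ᵐᵒᵖ where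
  carrier := {f | ∃ w : List A, f = MulOpposite.op (fun q => w.foldl δ q)}
  one_mem' := ⟨[], rfl⟩
  mul_mem' := by
    rintro _ _ ⟨w, rfl⟩ ⟨v, rfl⟩
    refine ⟨w ++ v, ?_⟩
    apply MulOpposite.unop_injective
    funext q
    change v.foldl δ (w.foldl δ q) = (w ++ v).foldl δ q
    rw [List.foldl_append]

/-- The image of a letter. -/
def tl {A Q : Type} (δ : Q → A → Q) (a : A) : tm δ := ⟨MulOpposite.op (fun q => δ q a), [a], rfl⟩

lemma tl_prod {A Q : Type} (δ : Q → A → Q) (w : List A) (q : Q) :
    MulOpposite.unop ((w.map (tl δ)).prod).1 q = w.foldl δ q := by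
  induction w generalizing q with
  | nil => rfl
  | cons a w ih =>
    rw [List.map_cons, List.prod_cons, List.foldl_cons, ← ih (δ q a)]
    rfl

lemma end_pow {Q : Type} (f : Function.End Q) (k : ℕ) (q : Q) :
    (f ^ k) q = (f : Q → Q)^[k] q := by
  induction k with
  | zero => rfl
  | succ k ih =>
    rw [pow_succ', Function.iterate_succ_apply', ← ih]
    rfl

lemma cf_pow {A Q : Type} [Finite Q] {δ : Q → A → Q} (h : CF δ) (w : List A)
    (f : Function.End Q) (hf : ∀ q, f q = w.foldl δ q) :
    f ^ (Nat.card Q + 1) = f ^ (Nat.card Q) := by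
  funext q
  rw [end_pow, end_pow, iter_stab (f : Q → Q)]
  intro n q hn hq
  have hf' : (f : Q → Q) = fun q => w.foldl δ q := funext hf
  rw [hf'] at hq ⊢
  exact h w n q hn hq

theorem SF.of_cf {A Q : Type} [Finite A] [Finite Q] {δ : Q → A → Q} (h : CF δ) (q : Q)
    (X : Set Q) : SF {w : List A | w.foldl δ q ∈ X} := by
  have hfin : Finite (Function.End Q) := inferInstanceAs (Finite (Q → Q))
  have hfin' : Finite (Function.End Q)ᵐᵒᵖ :=
    Finite.of_injective MulOpposite.unop MulOpposite.unop_injective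
  have hfin'' : Finite (tm δ) := Subtype.finite
  have hN : ∀ x : tm δ, x ^ (Nat.card Q + 1) = x ^ (Nat.card Q) := by
    rintro ⟨f, w, hw⟩
    apply Subtype.ext
    apply MulOpposite.unop_injective
    rw [SubmonoidClass.coe_pow, SubmonoidClass.coe_pow, MulOpposite.unop_pow,
      MulOpposite.unop_pow]
    refine cf_pow h w _ ?_
    intro q
    change (MulOpposite.unop f) q = _
    rw [hw]
    rfl
  have h1 := SF.of_aperiodic hN (tl δ) {f : tm δ | MulOpposite.unop f.1 q ∈ X}
  convert h1 using 1
  ext w
  simp only [Set.mem_setOf_eq]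
  rw [tl_prod]

/-! ### Star-free languages are recognised by finite aperiodic monoids -/

/-- `L` is recognised by a finite aperiodic monoid. -/
def Ap {A : Type} (L : Set (List A)) : Prop :=
  ∃ (M : Type) (_ : Monoid M) (_ : Finite M) (N : ℕ) (_ : ∀ x : M, x ^ (N + 1) = x ^ N)
    (φ : A → M) (X : Set M), ∀ w, w ∈ L ↔ (w.map φ).prod ∈ X

/-- The image of a letter in the Schützenberger product. -/
def schL {A M M' : Type} [Monoid M] [Monoid M'] (φ : A → M) (φ' : A → M') (a : A) : Sch M M' :=
  ⟨φ a, {(φ a, 1), (1, φ' a)}, φ' a⟩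

lemma schL_l {A M M' : Type} [Monoid M] [Monoid M'] (φ : A → M) (φ' : A → M') (w : List A) :
    ((w.map (schL φ φ')).prod).l = (w.map φ).prod := by
  induction w with
  | nil => rfl
  | cons a w ih =>
    rw [List.map_cons, List.prod_cons, Sch.mul_l, ih, List.map_cons, List.prod_cons]
    rfl

lemma schL_r {A M M' : Type} [Monoid M] [Monoid M'] (φ : A → M) (φ' : A → M') (w : List A) :
    ((w.map (schL φ φ')).prod).r = (w.map φ').prod := by
  induction w with
  | nil => rfl
  | cons a w ih =>
    rw [List.map_cons, List.prod_cons, Sch.mul_r, ih, List.map_cons, List.prod_cons]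
    rfl

lemma schL_s {A M M' : Type} [Monoid M] [Monoid M'] (φ : A → M) (φ' : A → M') (w : List A)
    (p : M × M') : p ∈ ((w.map (schL φ φ')).prod).s ↔
    w ≠ [] ∧ ∃ u v, w = u ++ v ∧ p = ((u.map φ).prod, (v.map φ').prod) := by
  induction w generalizing p with
  | nil =>
    simp only [List.map_nil, List.prod_nil, ne_eq, not_true_eq_false, false_and, iff_false]
    exact fun h => h
  | cons a w ih =>
    rw [List.map_cons, List.prod_cons, Sch.mul_s, schL_r]
    simp only [Set.mem_union, Set.mem_image, ne_eq, reduceCtorEq, not_false_eq_true, true_and]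
    constructor
    · rintro (⟨q, hq, rfl⟩ | ⟨q, hq, rfl⟩)
      · obtain ⟨-, u, v, rfl, rfl⟩ := (ih q).1 hq
        exact ⟨a :: u, v, rfl, by simp [schL]⟩
      · rcases hq with rfl | rfl
        · exact ⟨[a], w, rfl, by simp⟩
        · exact ⟨[], a :: w, rfl, by simp⟩
    · rintro ⟨u, v, h, rfl⟩
      rcases u with _ | ⟨b, u⟩
      · right
        rw [List.nil_append] at h
        subst h
        exact ⟨(1, φ' a), Or.inr rfl, by simp⟩
      · simp only [List.cons_append, List.cons.injEq] at h
        obtain ⟨rfl, rfl⟩ := h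
        by_cases hne : u ++ v = []
        · right
          obtain ⟨rfl, rfl⟩ := List.append_eq_nil_iff.1 hne
          exact ⟨(φ a, 1), Or.inl rfl, by simp⟩
        · left
          exact ⟨_, (ih _).2 ⟨hne, u, v, rfl, rfl⟩, by simp [schL]⟩

theorem SF.ap {A : Type} {L : Set (List A)} (h : SF L) : Ap L := by
  classical
  induction h with
  | empty =>
    exact ⟨Unit, inferInstance, inferInstance, 0, fun _ => rfl, fun _ => (), ∅, by simp⟩
  | letter a =>
    refine ⟨K3, inferInstance, inferInstance, 2, K3_pow, fun b => if b = a then K3.s else K3.z,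
      {K3.s}, ?_⟩
    have h0 : ∀ (b : A) (w : List A),
        ((b :: w).map (fun b => if b = a then K3.s else K3.z)).prod ≠ K3.e := by
      intro b w
      rw [List.map_cons, List.prod_cons]
      generalize (w.map (fun b => if b = a then K3.s else K3.z)).prod = m
      change K3.mul _ _ ≠ _
      split_ifs <;> cases m <;> simp [K3.mul]
    intro w
    rcases w with _ | ⟨b, _ | ⟨c, w⟩⟩
    · simp only [Set.mem_singleton_iff, reduceCtorEq, List.map_nil, List.prod_nil, false_iff]
    · simp only [Set.mem_singleton_iff, List.cons.injEq, and_true, List.map_cons, List.map_nil,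
        List.prod_cons, List.prod_nil, mul_one]
      by_cases hb : b = a <;> simp [hb]
    · have h1 := h0 c w
      rw [List.map_cons, List.prod_cons]
      generalize ((c :: w).map (fun b => if b = a then K3.s else K3.z)).prod = m at h1 ⊢
      simp only [Set.mem_singleton_iff, List.cons.injEq, reduceCtorEq, and_false, false_iff]
      change ¬ (K3.mul _ _ = _)
      revert h1
      split_ifs <;> cases m <;> simp [K3.mul]
  | @compl L _ ih =>
    obtain ⟨M, _, _, N, hN, φ, X, h⟩ := ih
    exact ⟨M, inferInstance, inferInstance, N, hN, φ, Xᶜ, fun w => not_congr (h w)⟩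
  | @union L L' _ _ ih ih' =>
    obtain ⟨M, _, _, N, hN, φ, X, h⟩ := ih
    obtain ⟨M', _, _, N', hN', φ', X', h'⟩ := ih'
    refine ⟨M × M', inferInstance, inferInstance, N + N', ?_, fun a => (φ a, φ' a),
      {p | p.1 ∈ X ∨ p.2 ∈ X'}, ?_⟩
    · rintro ⟨x, y⟩
      rw [Prod.pow_mk, Prod.pow_mk, pow_stab' (hN x) (k := N + N' + 1) (l := N + N') (by omega)
        (by omega), pow_stab' (hN' y) (k := N + N' + 1) (l := N + N') (by omega) (by omega)]
    · intro w
      have h1 : ∀ w : List A, (w.map (fun a => (φ a, φ' a))).prod =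
          ((w.map φ).prod, (w.map φ').prod) := by
        intro w
        induction w with
        | nil => rfl
        | cons a w ih => simp [ih]
      rw [h1 w]
      exact or_congr (h w) (h' w)
  | @conc L L' _ _ ih ih' =>
    obtain ⟨M, _, _, N, hN, φ, X, h⟩ := ih
    obtain ⟨M', _, _, N', hN', φ', X', h'⟩ := ih'
    refine ⟨Sch M M', inferInstance, inferInstance, 2 * (N + N') + 1, ?_, schL φ φ',
      {x | (∃ p ∈ x.s, p.1 ∈ X ∧ p.2 ∈ X') ∨ (x.s = ∅ ∧ 1 ∈ X ∧ 1 ∈ X')}, ?_⟩
    · intro x
      exact Sch.pow_stable x (N + N')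
        (pow_stab' (hN x.l) (k := N + N' + 1) (l := N + N') (by omega) (by omega))
        (pow_stab' (hN' x.r) (k := N + N' + 1) (l := N + N') (by omega) (by omega))
    · intro w
      simp only [mem_conc, Set.mem_setOf_eq, schL_s]
      constructor
      · rintro ⟨u, hu, v, hv, rfl⟩
        by_cases hne : u ++ v = []
        · right
          obtain ⟨rfl, rfl⟩ := List.append_eq_nil_iff.1 hne
          exact ⟨rfl, by simpa using (h []).1 hu, by simpa using (h' []).1 hv⟩
        · left
          exact ⟨_, ⟨hne, u, v, rfl, rfl⟩, (h u).1 hu, (h' v).1 hv⟩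
      · rintro (⟨p, ⟨-, u, v, rfl, rfl⟩, h1, h2⟩ | ⟨h1, h2, h3⟩)
        · exact ⟨u, (h u).2 h1, v, (h' v).2 h2, rfl⟩
        · have hw : w = [] := by
            by_contra hne
            have : ((w.map φ).prod, ([] : List A).map φ' |>.prod) ∈
                ((w.map (schL φ φ')).prod).s :=
              (schL_s φ φ' w _).2 ⟨hne, w, [], by simp, rfl⟩
            rw [h1] at this
            exact this
          subst hw
          exact ⟨[], (h []).2 (by simpa using h2), [], (h' []).2 (by simpa using h3), rfl⟩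

end Pool.Agent.Work.MP_47bae8_ab
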