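import Pool.Agent.Work.MP_47bae8_lc.Defs

set_option autoImplicit false

namespace Pool.Agent.Work.MP_47bae8_ab

open Pool.Agent.Work.MP_47bae8_lc

/-- The smallest class of languages over `A` that contains the letters and the languages
`{w | the number of occurrences of a in w is congruent to r modulo m}`, and is closed under
complement, union and product. -/
inductive CSF {A : Type} [DecidableEq A] : Set (List A) → Prop
  | letter (a : A) : CSF {[a]}
  | count (a : A) (m r : ℕ) (hm : 0 < m) : CSF {w | w.count a % m = r}
  | compl {L : Set (List A)} : CSF L → CSF Lᶜ
  | union {L M : Set (List A)} : CSF L → CSF M → CSF (L ∪ M)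
  | conc {L M : Set (List A)} : CSF L → CSF M → CSF (conc L M)

end Pool.Agent.Work.MP_47bae8_ab
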