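import Pool.Agent.Work.MP_47bae8_ab.Coord
import Pool.Agent.Work.MP_47bae8_ab.Defs

set_option autoImplicit false

namespace Pool.Agent.Work.MP_47bae8_ab

open Pool.Agent.Work.MP_47bae8_lc

variable {A : Type}

/-- The word labelled with the states before each letter. -/
def lb {Q : Type} (δ : Q → A → Q) : Q → List A → List (A × Q)
  | _, [] => []
  | q, a :: w => (a, q) :: lb δ (δ q a) w

lemma lb_append {Q : Type} (δ : Q → A → Q) (q : Q) (u v : List A) :
    lb δ q (u ++ v) = lb δ q u ++ lb δ (u.foldl δ q) v := by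
  induction u generalizing q with
  | nil => rfl
  | cons a u ih => simp [lb, ih]

lemma lb_split {Q : Type} {δ : Q → A → Q} {q : Q} {w : List A} {s t : List (A × Q)}
    (h : lb δ q w = s ++ t) : ∃ u v, w = u ++ v ∧ lb δ q u = s ∧ lb δ (u.foldl δ q) v = t := by
  induction s generalizing q w with
  | nil => exact ⟨[], w, rfl, rfl, h⟩
  | cons p s ih =>
    rcases w with _ | ⟨a, w⟩
    · simp [lb] at h
    · simp only [lb, List.cons_append, List.cons.injEq] at h
      obtain ⟨u, v, rfl, h1, h2⟩ := ih h.2
      exact ⟨a :: u, v, rfl, by simp [lb, h1, h.1], h2⟩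

/-- The cascade lemma. -/
theorem cascade [Nonempty A] {Q : Type} [Finite Q] {δ : Q → A → Q}
    (h : ∀ q q', Intermixed {w : List A | w.foldl δ q = q'}) {K : Set (List (A × Q))}
    (hK : SF K) (q : Q) : Intermixed {w : List A | lb δ q w ∈ K} := by
  induction hK generalizing q with
  | empty => simpa using SF.empty.intermixed
  | letter p =>
    obtain ⟨a, q0⟩ := p
    by_cases hq : q0 = q
    · convert Intermixed.letter a using 1
      ext w
      simp only [Set.mem_setOf_eq, Set.mem_singleton_iff]
      rcases w with _ | ⟨b, _ | ⟨c, w⟩⟩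
      · simp [lb]
      · simp [lb, hq]
      · simp [lb]
    · convert (SF.empty (A := A)).intermixed using 1
      ext w
      simp only [Set.mem_setOf_eq, Set.mem_singleton_iff, Set.mem_empty_iff_false, iff_false]
      rcases w with _ | ⟨b, _ | ⟨c, w⟩⟩
      · simp [lb]
      · simp only [lb, List.cons.injEq, Prod.mk.injEq, and_true, not_and]
        exact fun _ h => hq h.symm
      · simp [lb]
  | compl _ ih => exact (ih q).compl
  | union _ _ ih ih' => exact (ih q).union (ih' q)
  | @conc K₁ K₂ _ _ ih ih' =>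
    have := Intermixed.iUnion (fun q' : Q =>
      (Intermixed.inter' (ih q) (h q q')).conc (ih' q'))
    convert this using 1
    ext w
    simp only [Set.mem_setOf_eq, mem_conc, Set.mem_iUnion, Set.mem_inter_iff]
    constructor
    · rintro ⟨s, hs, t, ht, hw⟩
      obtain ⟨u, v, rfl, rfl, rfl⟩ := lb_split hw
      exact ⟨u.foldl δ q, u, ⟨hs, rfl⟩, v, ht, rfl⟩
    · rintro ⟨q', u, ⟨hu, rfl⟩, v, hv, rfl⟩
      exact ⟨_, hu, _, hv, lb_append δ q u v⟩

/-- The final state can be read off from the labelled word. -/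
lemma fin_sf [Finite A] {Q : Type} [Finite Q] (δ : Q → A → Q) (q q' : Q) :
    ∃ E : Set (List (A × Q)), SF E ∧ ∀ w, lb δ q w ∈ E ↔ w.foldl δ q = q' := by
  have h1 : SF {u : List (A × Q) | q = q' ∧ u ∈ ({[]} : Set (List (A × Q)))} := SF.ite SF.nil
  have h2 := SF.univ.conc (SF.letters {p : A × Q | δ p.2 p.1 = q'})
  refine ⟨_, h1.union h2, ?_⟩
  intro w
  simp only [Set.mem_union, Set.mem_setOf_eq, Set.mem_singleton_iff, mem_conc, Set.mem_univ,
    true_and]
  rcases List.eq_nil_or_concat w with rfl | ⟨w', x, rfl⟩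
  · simp [lb]
  · rw [List.concat_eq_append, lb_append, List.foldl_append]
    simp only [lb, List.append_eq_nil_iff, reduceCtorEq, and_false, false_or, List.foldl_cons,
      List.foldl_nil]
    constructor
    · rintro ⟨u, v, ⟨p, hp, rfl⟩, h⟩
      have := List.append_inj_right' h rfl
      simp only [List.cons.injEq, and_true] at this
      rw [← this] at hp
      exact hp
    · intro h
      exact ⟨_, _, ⟨_, h, rfl⟩, rfl⟩

variable [DecidableEq A]

/-- counting all letters modulo `m` -/
def cnt (m : ℕ) (g : A → ZMod m) (a : A) : A → ZMod m := g + Pi.single a 1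

lemma cnt_foldl {m : ℕ} (w : List A) (g : A → ZMod m) (b : A) :
    w.foldl (cnt m) g b = g b + (w.count b : ZMod m) := by
  induction w generalizing g with
  | nil => simp
  | cons x w ih =>
    rw [List.foldl_cons, ih]
    by_cases hx : x = b
    · subst hx
      simp only [cnt, Pi.add_apply, Pi.single_eq_same, List.count_cons_self]
      push_cast
      ring
    · rw [List.count_cons_of_ne hx]
      simp only [cnt, Pi.add_apply]
      rw [Pi.single_eq_of_ne (Ne.symm hx), add_zero]

/-- A language is determined by a star-free property of the labelled words. -/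
def Rep (m : ℕ) (L : Set (List A)) : Prop :=
  ∃ K : Set (List (A × (A → ZMod m))), SF K ∧ ∀ w, w ∈ L ↔ lb (cnt m) 0 w ∈ K

lemma lb_cast {m m' : ℕ} (h : m ∣ m') (w : List A) (g : A → ZMod m') :
    (lb (cnt m') g w).map (fun p => (p.1, fun a => ZMod.castHom h (ZMod m) (p.2 a))) =
      lb (cnt m) (fun a => ZMod.castHom h (ZMod m) (g a)) w := by
  induction w generalizing g with
  | nil => rfl
  | cons x w ih =>
    simp only [lb, List.map_cons]
    rw [ih]
    congr 2
    funext a
    simp only [cnt, Pi.add_apply, map_add]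
    congr 1
    by_cases hx : a = x
    · subst hx
      rw [Pi.single_eq_same, Pi.single_eq_same, map_one]
    · rw [Pi.single_eq_of_ne hx, Pi.single_eq_of_ne hx, map_zero]

lemma Rep.dvd [Finite A] {m m' : ℕ} (h : m ∣ m') [NeZero m'] {L : Set (List A)} (hL : Rep m L) :
    Rep m' L := by
  obtain ⟨K, hK, hw⟩ := hL
  refine ⟨_, SF.comap (fun p : A × (A → ZMod m') =>
    (p.1, fun a => ZMod.castHom h (ZMod m) (p.2 a))) hK, ?_⟩
  intro w
  rw [hw, Set.mem_setOf_eq, lb_cast]
  have : (fun a : A => (ZMod.castHom h (ZMod m)) ((0 : A → ZMod m') a)) = 0 := by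
    funext a
    simp
  rw [this]

lemma lb_shift {m : ℕ} (w : List A) (g h : A → ZMod m) :
    (lb (cnt m) h w).map (fun p => (p.1, p.2 - g)) = lb (cnt m) (h - g) w := by
  induction w generalizing h with
  | nil => rfl
  | cons x w ih =>
    simp only [lb, List.map_cons]
    rw [ih]
    congr 2
    simp only [cnt]
    abel

theorem CSF.rep [Finite A] {L : Set (List A)} (h : CSF L) : ∃ m, 0 < m ∧ Rep m L := by
  induction h with
  | letter a =>
    refine ⟨1, one_pos, {[(a, 0)]}, SF.letter _, ?_⟩
    intro w
    simp only [Set.mem_singleton_iff]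
    rcases w with _ | ⟨b, _ | ⟨c, w⟩⟩
    · simp [lb]
    · simp [lb]
    · simp [lb]
  | count a m r hm =>
    have : NeZero m := ⟨hm.ne'⟩
    refine ⟨m, hm, ?_⟩
    choose E hE hE' using fin_sf (A := A) (cnt m) (0 : A → ZMod m)
    refine ⟨_, SF.iUnionP (p := fun g : A → ZMod m => (g a).val = r) (fun g _ => hE g), ?_⟩
    intro w
    simp only [Set.mem_setOf_eq, hE']
    constructor
    · intro h
      refine ⟨_, ?_, rfl⟩
      rw [cnt_foldl, Pi.zero_apply, zero_add, ZMod.val_natCast, h]
    · rintro ⟨g, h, rfl⟩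
      rw [cnt_foldl, Pi.zero_apply, zero_add, ZMod.val_natCast] at h
      exact h
  | compl _ ih =>
    obtain ⟨m, hm, K, hK, h⟩ := ih
    exact ⟨m, hm, Kᶜ, hK.compl, fun w => not_congr (h w)⟩
  | union _ _ ih ih' =>
    obtain ⟨m, hm, h⟩ := ih
    obtain ⟨m', hm', h'⟩ := ih'
    have : NeZero (m * m') := ⟨(Nat.mul_pos hm hm').ne'⟩
    obtain ⟨K, hK, h⟩ := h.dvd (Dvd.intro m' rfl)
    obtain ⟨K', hK', h'⟩ := h'.dvd (Dvd.intro_left m rfl)
    exact ⟨m * m', Nat.mul_pos hm hm', K ∪ K', hK.union hK', fun w => or_congr (h w) (h' w)⟩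
  | conc _ _ ih ih' =>
    obtain ⟨m, hm, h⟩ := ih
    obtain ⟨m', hm', h'⟩ := ih'
    have : NeZero (m * m') := ⟨(Nat.mul_pos hm hm').ne'⟩
    obtain ⟨K, hK, h⟩ := h.dvd (Dvd.intro m' rfl)
    obtain ⟨K', hK', h'⟩ := h'.dvd (Dvd.intro_left m rfl)
    choose E hE hE' using fin_sf (A := A) (cnt (m * m')) (0 : A → ZMod (m * m'))
    refine ⟨m * m', Nat.mul_pos hm hm', _, SF.iUnion (fun g : A → ZMod (m * m') =>
      (hK.inter (hE g)).conc (SF.comap (fun p : A × (A → ZMod (m * m')) => (p.1, p.2 - g)) hK')),
      ?_⟩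
    intro w
    simp only [mem_conc, Set.mem_iUnion, Set.mem_inter_iff, Set.mem_setOf_eq]
    constructor
    · rintro ⟨u, hu, v, hv, rfl⟩
      refine ⟨u.foldl (cnt (m * m')) 0, _, ⟨(h u).1 hu, (hE' _ u).2 rfl⟩, _, ?_,
        lb_append _ _ _ _⟩
      rw [lb_shift, sub_self]
      exact (h' v).1 hv
    · rintro ⟨g, s, ⟨hs, hg⟩, t, ht, hw⟩
      obtain ⟨u, v, rfl, rfl, rfl⟩ := lb_split hw
      rw [hE'] at hg
      rw [lb_shift, hg, sub_self] at ht
      exact ⟨u, (h u).2 hs, v, (h' v).2 ht, rfl⟩

/-! ### Adjusting the long runs -/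

/-- The output of the adjusting transducer. -/
def out (m N : ℕ) (q : A → ZMod m × Fin (N + 1)) (a : A) : List A :=
  if (q a).2.1 + 1 < N then [a] else List.replicate (-(q a).1).val a

/-- The adjusted word. -/
def adj (m N : ℕ) : (A → ZMod m × Fin (N + 1)) → List A → List A
  | _, [] => []
  | q, a :: w => out m N q a ++ adj m N (pr m N q a) w

lemma cc_out {m N : ℕ} [NeZero m] (q : A → ZMod m × Fin (N + 1)) (a : A) :
    (out m N q a).foldl (cnt m) (fun b => (q b).1) = fun b => (pr m N q a b).1 := by
  funext b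
  rw [cnt_foldl]
  by_cases hb : a = b
  · subst hb
    by_cases hl : (q a).2.1 + 1 < N
    · have e : pr m N q a a = _ := co_a (c := (q a).1) (l := (q a).2) hl
      rw [e]
      simp [out, hl]
    · have e : pr m N q a a = _ := co_a' (c := (q a).1) (l := (q a).2) hl
      rw [e]
      simp [out, hl]
  · have e : pr m N q a b = _ := co_b (c := (q b).1) (l := (q b).2) hb
    rw [e]
    have : (out m N q a).count b = 0 := by
      apply List.count_eq_zero_of_not_mem
      unfold out
      split_ifs
      · simpa using Ne.symm hb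
      · intro h
        exact hb (List.eq_of_mem_replicate h).symm
    rw [this]
    simp

lemma adj_lb {m N : ℕ} [NeZero m] {M : Type} [Monoid M] (φ : A × (A → ZMod m) → M)
    (w : List A) (q : A → ZMod m × Fin (N + 1)) :
    ((lb (cnt m) (fun b => (q b).1) (adj m N q w)).map φ).prod =
      ((lb (pr m N) q w).map
        (fun p => ((lb (cnt m) (fun b => (p.2 b).1) (out m N p.2 p.1)).map φ).prod)).prod := by
  induction w generalizing q with
  | nil => rfl
  | cons a w ih =>
    simp only [adj, lb, List.map_cons, List.prod_cons]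
    rw [lb_append, List.map_append, List.prod_append, cc_out, ih]

lemma adj_syn {m N : ℕ} [NeZero m] {M : Type} [Monoid M] (f : A → M)
    (hf : ∀ a k, N ≤ k + 1 → f a ^ (k + 1) = f a ^ k)
    (w : List A) (q : A → ZMod m × Fin (N + 1)) (σ : M)
    (hσ : ∀ a, ∃ σ', σ = σ' * f a ^ (q a).2.1) :
    σ * (w.map f).prod = σ * ((adj m N q w).map f).prod := by
  induction w generalizing q σ with
  | nil => rfl
  | cons a w ih =>
    simp only [adj, List.map_cons, List.prod_cons, List.map_append, List.prod_append]
    obtain ⟨σ', h1⟩ := hσ a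
    by_cases hl : (q a).2.1 + 1 < N
    · have e : out m N q a = [a] := by simp [out, hl]
      rw [e, List.map_singleton, List.prod_singleton, ← mul_assoc, ← mul_assoc]
      apply ih
      intro b
      by_cases hb : a = b
      · subst hb
        have e : pr m N q a a = _ := co_a (c := (q a).1) (l := (q a).2) hl
        rw [e]
        refine ⟨σ', ?_⟩
        simp only
        rw [pow_succ, ← mul_assoc, ← h1]
      · have e : pr m N q a b = _ := co_b (c := (q b).1) (l := (q b).2) hb
        rw [e]
        exact ⟨σ * f a, by simp⟩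
    · have e : out m N q a = List.replicate (-(q a).1).val a := by simp [out, hl]
      rw [e, List.map_replicate, List.prod_replicate, ← mul_assoc, ← mul_assoc]
      have h2 : ∀ i, σ * f a ^ i = σ := by
        intro i
        induction i with
        | zero => simp
        | succ i ih =>
          rw [pow_succ', ← mul_assoc]
          have : σ * f a = σ := by
            rw [h1, mul_assoc, ← pow_succ, hf a _ (by omega)]
          rw [this, ih]
      rw [h2]
      have h3 : σ * f a = σ := by simpa using h2 1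
      rw [h3]
      apply ih
      intro b
      by_cases hb : a = b
      · subst hb
        have e : pr m N q a a = _ := co_a' (c := (q a).1) (l := (q a).2) hl
        rw [e]
        refine ⟨σ, ?_⟩
        simp only
        rw [h2]
      · have e : pr m N q a b = _ := co_b (c := (q b).1) (l := (q b).2) hb
        rw [e]
        exact ⟨σ, by simp⟩

end Pool.Agent.Work.MP_47bae8_ab
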