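import Pool.Agent.Work.MP_47bae8_ab.Count

set_option autoImplicit false

namespace Pool.Agent.Work.MP_47bae8_ab

open Pool.Agent.Work.MP_47bae8_lc

variable {A : Type}

/-! ### Closure properties of the intermixed languages -/

lemma Intermixed.inter' {L M : Set (List A)} (h : Intermixed L) (h' : Intermixed M) :
    Intermixed (L ∩ M) := by
  have := (h.compl.union h'.compl).compl
  rwa [Set.compl_union, compl_compl, compl_compl] at this

lemma Intermixed.biUnion [Nonempty A] {ι : Type*} (s : Finset ι) {f : ι → Set (List A)}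
    (h : ∀ i ∈ s, Intermixed (f i)) : Intermixed (⋃ i ∈ s, f i) := by
  classical
  induction s using Finset.induction with
  | empty => simpa using SF.empty.intermixed
  | insert i s hi ih =>
    rw [Finset.set_biUnion_insert]
    exact (h i (Finset.mem_insert_self i s)).union
      (ih (fun j hj => h j (Finset.mem_insert_of_mem hj)))

lemma Intermixed.iUnion [Nonempty A] {ι : Type*} [Finite ι] {f : ι → Set (List A)}
    (h : ∀ i, Intermixed (f i)) : Intermixed (⋃ i, f i) := by
  classical
  have := Fintype.ofFinite ι
  have := Intermixed.biUnion Finset.univ (f := f) (fun i _ => h i)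
  simpa using this

lemma Intermixed.iInter [Nonempty A] {ι : Type*} [Finite ι] {f : ι → Set (List A)}
    (h : ∀ i, Intermixed (f i)) : Intermixed (⋂ i, f i) := by
  have := (Intermixed.iUnion (fun i => (h i).compl)).compl
  rwa [← Set.compl_iInter, compl_compl] at this

/-! ### The capped run length -/

variable [DecidableEq A]

/-- the length of the current run of `a`, capped at `N` -/
def rl (N : ℕ) (a : A) (l : ℕ) (x : A) : ℕ := if x = a then min (l + 1) N else 0

lemma rl_cases (N : ℕ) (a : A) (w : List A) :
    (∀ l ≤ N, w.foldl (rl N a) l = min (l + w.length) N) ∨ (∃ t, ∀ l, w.foldl (rl N a) l = t) := by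
  induction w with
  | nil => left; intro l hl; simpa using hl
  | cons x w ih =>
    by_cases hx : x = a
    · rcases ih with h | ⟨t, h⟩
      · left
        intro l hl
        simp only [List.foldl_cons, rl, hx, if_true, List.length_cons]
        rw [h _ (min_le_right _ _)]
        omega
      · right
        exact ⟨t, fun l => by simp only [List.foldl_cons, h]⟩
    · right
      exact ⟨w.foldl (rl N a) 0, fun l => by simp only [List.foldl_cons, rl, hx, if_false]⟩

lemma rl_sf [Finite A] (N : ℕ) (a : A) {l : ℕ} (hl : l ≤ N) (X : Set ℕ) :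
    SF {w : List A | w.foldl (rl N a) l ∈ X} := by
  refine SF.of_cf' {l | l ≤ N} (Set.finite_Iic N) ?_ ?_ hl X
  · intro l _ x
    unfold rl
    simp only [Set.mem_setOf_eq]
    split_ifs
    · exact min_le_right _ _
    · exact Nat.zero_le _
  · intro w n q hq hn hw
    simp only [Set.mem_setOf_eq] at hq
    rcases rl_cases N a w with h | ⟨t, h⟩
    · rcases Nat.eq_zero_or_pos w.length with h0 | h0
      · rw [h q hq, h0]
        simpa using hq
      · have h1 : ∀ k, (fun q => w.foldl (rl N a) q)^[k] q = min (q + k * w.length) N := by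
          intro k
          induction k with
          | zero =>
            simp only [Function.iterate_zero, id_eq, Nat.zero_mul, Nat.add_zero]
            omega
          | succ k ih =>
            rw [Function.iterate_succ_apply', ih, h _ (min_le_right _ _), Nat.succ_mul]
            omega
        rw [h1] at hw
        rw [h q hq]
        have : 1 * w.length ≤ n * w.length := Nat.mul_le_mul_right _ hn
        omega
    · obtain ⟨n, rfl⟩ : ∃ k, n = k + 1 := ⟨n - 1, by omega⟩
      rw [Function.iterate_succ_apply', h] at hw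
      rw [h, hw]

/-! ### The coordinate automaton -/

/-- The coordinate automaton of the letter `a`: it counts the letter `a` modulo `m` and follows
the length of the current run, capped at `N`; in long runs the counter is reset to `0`. -/
def co (m N : ℕ) (a : A) (q : ZMod m × Fin (N + 1)) (x : A) : ZMod m × Fin (N + 1) :=
  if x = a then (if h : q.2.1 + 1 < N then (q.1 + 1, ⟨q.2.1 + 1, by omega⟩)
    else (0, ⟨N, by omega⟩)) else (q.1, 0)

lemma co_a {m N : ℕ} {a : A} {c : ZMod m} {l : Fin (N + 1)} (h : l.1 + 1 < N) :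
    co m N a (c, l) a = (c + 1, ⟨l.1 + 1, by omega⟩) := by
  simp [co, h]

lemma co_a' {m N : ℕ} {a : A} {c : ZMod m} {l : Fin (N + 1)} (h : ¬ l.1 + 1 < N) :
    co m N a (c, l) a = (0, ⟨N, by omega⟩) := by
  simp [co, h]

lemma co_b {m N : ℕ} {a b : A} {c : ZMod m} {l : Fin (N + 1)} (h : b ≠ a) :
    co m N a (c, l) b = (c, 0) := by
  simp [co, h]

lemma nl_a {N : ℕ} {a : A} {j l : ℕ} (h : l + 1 < N) :
    nl N a (some (j, l)) a = some (j, l + 1) := vd_a h

lemma nl_a' {N : ℕ} {a : A} {j l : ℕ} (h : ¬ l + 1 < N) : nl N a (some (j, l)) a = none :=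
  vd_a' h

lemma nl_b {N : ℕ} {a b : A} {j l : ℕ} (h : b ≠ a) : nl N a (some (j, l)) b = some (j, 0) :=
  vd_b h

lemma nl_none (N : ℕ) (a : A) (w : List A) : w.foldl (nl N a) none = none := vd_none _ _ _ _

lemma nl_mono {N : ℕ} {a : A} (w : List A) {l l' : ℕ} (hl : l' ≤ l)
    (h : w.foldl (nl N a) (some (0, l)) ≠ none) : w.foldl (nl N a) (some (0, l')) ≠ none := by
  induction w generalizing l l' with
  | nil => simp
  | cons x w ih =>
    rw [List.foldl_cons] at h ⊢
    by_cases hx : x = a
    · subst hx
      by_cases hl1 : l + 1 < N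
      · rw [nl_a hl1] at h
        rw [nl_a (by omega)]
        exact ih (by omega) h
      · rw [nl_a' hl1, nl_none] at h
        exact absurd rfl h
    · rw [nl_b hx] at h ⊢
      exact h

lemma co_nl {m N : ℕ} {a : A} (w : List A) {c : ZMod m} {l : Fin (N + 1)} {j l' : ℕ}
    (h : w.foldl (nl N a) (some (0, l.1)) = some (j, l')) :
    (w.foldl (co m N a) (c, l)).1 = c + (w.count a : ZMod m) ∧
      (w.foldl (co m N a) (c, l)).2.1 = l' ∧ j = 0 := by
  induction w generalizing c l with
  | nil =>
    simp only [List.foldl_nil, Option.some.injEq, Prod.mk.injEq] at h ⊢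
    simp [h.2, ← h.1]
  | cons x w ih =>
    rw [List.foldl_cons] at h ⊢
    by_cases hx : x = a
    · subst hx
      by_cases hl1 : l.1 + 1 < N
      · rw [nl_a hl1] at h
        rw [co_a hl1]
        obtain ⟨h1, h2, h3⟩ := ih (c := c + 1) (l := ⟨l.1 + 1, by omega⟩) h
        refine ⟨?_, h2, h3⟩
        rw [h1, List.count_cons_self]
        push_cast
        ring
      · rw [nl_a' hl1, nl_none] at h
        simp at h
    · rw [nl_b hx] at h
      rw [co_b hx, List.count_cons_of_ne hx]
      exact ih (c := c) (l := 0) h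

lemma co_hit {m N : ℕ} (hN : 0 < N) {a : A} (w : List A) {c : ZMod m} {l : Fin (N + 1)}
    (hw : w ≠ []) (h : w.foldl (rl N a) l.1 = N) :
    w.foldl (co m N a) (c, l) = (0, ⟨N, by omega⟩) := by
  induction w generalizing c l with
  | nil => exact absurd rfl hw
  | cons x w ih =>
    rw [List.foldl_cons] at h ⊢
    by_cases hx : x = a
    · subst hx
      by_cases hl1 : l.1 + 1 < N
      · have e : rl N x l.1 x = l.1 + 1 := by
          simp only [rl, if_true]
          omega
        rw [e] at h
        rw [co_a hl1]
        rcases eq_or_ne w [] with rfl | hne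
        · simp only [List.foldl_nil] at h
          omega
        · exact ih (c := c + 1) (l := ⟨l.1 + 1, by omega⟩) hne h
      · have e : rl N x l.1 x = N := by
          simp only [rl, if_true]
          omega
        rw [e] at h
        rw [co_a' hl1]
        rcases eq_or_ne w [] with rfl | hne
        · rfl
        · exact ih (c := 0) (l := ⟨N, by omega⟩) hne h
    · have e : rl N a l.1 x = 0 := by simp [rl, hx]
      rw [e] at h
      rw [co_b hx]
      rcases eq_or_ne w [] with rfl | hne
      · simp only [List.foldl_nil] at h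
        omega
      · exact ih (c := c) (l := 0) hne h

lemma decomp {N : ℕ} (a : A) (w : List A) {l : ℕ} (hl : l ≤ N) :
    w.foldl (nl N a) (some (0, l)) ≠ none ∨ ∃ w₁ w₂, w = w₁ ++ w₂ ∧ w₁ ≠ [] ∧
      w₁.foldl (rl N a) l = N ∧ w₂.foldl (nl N a) (some (0, N)) ≠ none := by
  induction w generalizing l with
  | nil => left; simp
  | cons x w ih =>
    by_cases hx : x = a
    · subst hx
      by_cases hl1 : l + 1 < N
      · rcases ih (l := l + 1) (by omega) with h | ⟨w₁, w₂, rfl, h1, h2, h3⟩
        · left
          rwa [List.foldl_cons, nl_a hl1]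
        · right
          refine ⟨x :: w₁, w₂, rfl, by simp, ?_, h3⟩
          have e : rl N x l x = l + 1 := by
            simp only [rl, if_true]
            omega
          rw [List.foldl_cons, e, h2]
      · have e : rl N x l x = N := by
          simp only [rl, if_true]
          omega
        right
        rcases ih (l := N) le_rfl with h | ⟨w₁, w₂, rfl, h1, h2, h3⟩
        · exact ⟨[x], w, rfl, by simp, by simpa using e, h⟩
        · exact ⟨x :: w₁, w₂, rfl, by simp, by rw [List.foldl_cons, e, h2], h3⟩
    · rcases ih (l := 0) (by omega) with h | ⟨w₁, w₂, rfl, h1, h2, h3⟩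
      · left
        rwa [List.foldl_cons, nl_b hx]
      · right
        refine ⟨x :: w₁, w₂, rfl, by simp, ?_, h3⟩
        have e : rl N a l x = 0 := by simp [rl, hx]
        rw [List.foldl_cons, e, h2]

/-- no long run, prescribed final run length, prescribed count modulo `m` -/
lemma nlc_intermixed [Finite A] {N m : ℕ} [NeZero m] (hN : 0 < N) (a : A) (l l' : ℕ)
    (d : ZMod m) : Intermixed {w : List A | w.foldl (nl N a) (some (0, l)) = some (0, l') ∧
      (w.count a : ZMod m) = d} := by
  have : Nonempty A := ⟨a⟩
  have h1 := count_intermixed (A := A) hN (Nat.pos_of_ne_zero (NeZero.ne m)) a d.val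
  have h2 := nl_sf (A := A) N a l {some (0, l')}
  have h3 := Intermixed.inter' h2.intermixed h1
  convert h3 using 1
  ext w
  simp only [Set.mem_setOf_eq, Set.mem_inter_iff, Set.mem_singleton_iff]
  refine and_congr_right fun hw => ?_
  have h4 : w.foldl (nl N a) (some (0, 0)) ≠ none :=
    nl_mono w (Nat.zero_le l) (by rw [hw]; simp)
  rw [and_iff_right h4, ← ZMod.val_natCast]
  constructor
  · rintro rfl; rfl
  · intro h
    exact ZMod.val_injective m h

/-- The coordinate automaton accepts intermixed languages. -/
theorem co_intermixed [Finite A] {N m : ℕ} [NeZero m] (hN : 0 < N) (a : A)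
    (q q' : ZMod m × Fin (N + 1)) :
    Intermixed {w : List A | w.foldl (co m N a) q = q'} := by
  have : Nonempty A := ⟨a⟩
  obtain ⟨c, l⟩ := q
  obtain ⟨c', l'⟩ := q'
  have h1 := nlc_intermixed (A := A) hN a l.1 l'.1 (c' - c)
  have h2 := nlc_intermixed (A := A) hN a N l'.1 c'
  have h3 : SF {w : List A | w ≠ []} := SF.nil.compl
  have h4 := rl_sf (A := A) N a (l := l.1) (by omega) {N}
  have h5 := h1.union ((h3.inter h4).intermixed.conc h2)
  convert h5 using 1
  ext w
  simp only [Set.mem_setOf_eq, Set.mem_union, mem_conc, Set.mem_inter_iff,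
    Set.mem_singleton_iff]
  constructor
  · intro hw
    rcases decomp a w (l := l.1) (by omega : l.1 ≤ N) with h | ⟨w₁, w₂, rfl, h6, h7, h8⟩
    · left
      rcases hq : w.foldl (nl N a) (some (0, l.1)) with _ | ⟨j, l1⟩
      · exact absurd hq h
      · obtain ⟨e1, e2, e3⟩ := co_nl (m := m) w (c := c) hq
        rw [hw] at e1 e2
        refine ⟨by rw [e3, ← e2], ?_⟩
        have e1' : c' = c + (w.count a : ZMod m) := e1
        rw [e1']
        ring
    · right
      refine ⟨w₁, ⟨h6, h7⟩, w₂, ?_, rfl⟩
      rw [List.foldl_append, co_hit hN w₁ h6 h7] at hw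
      rcases hq : w₂.foldl (nl N a) (some (0, N)) with _ | ⟨j, l1⟩
      · exact absurd hq h8
      · obtain ⟨e1, e2, e3⟩ := co_nl (m := m) w₂ (c := 0) (l := ⟨N, by omega⟩) hq
        rw [hw] at e1 e2
        refine ⟨by rw [e3, ← e2], ?_⟩
        have e1' : c' = 0 + (w₂.count a : ZMod m) := e1
        rw [e1', zero_add]
  · rintro (⟨h6, h7⟩ | ⟨w₁, ⟨h6, h7⟩, w₂, ⟨h8, h9⟩, rfl⟩)
    · obtain ⟨e1, e2, -⟩ := co_nl (m := m) w (c := c) h6
      refine Prod.ext ?_ (Fin.ext e2)
      rw [e1, h7]
      ring
    · rw [List.foldl_append, co_hit hN w₁ h6 h7]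
      obtain ⟨e1, e2, -⟩ := co_nl (m := m) w₂ (c := 0) (l := ⟨N, by omega⟩) h8
      refine Prod.ext ?_ (Fin.ext e2)
      rw [e1, h9, zero_add]

/-- The product of the coordinate automata. -/
def pr (m N : ℕ) (q : A → ZMod m × Fin (N + 1)) (x : A) : A → ZMod m × Fin (N + 1) :=
  fun a => co m N a (q a) x

lemma pr_foldl {m N : ℕ} (w : List A) (q : A → ZMod m × Fin (N + 1)) :
    w.foldl (pr m N) q = fun a => w.foldl (co m N a) (q a) := by
  induction w generalizing q with
  | nil => rfl
  | cons x w ih =>
    rw [List.foldl_cons, ih]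
    rfl

theorem pr_intermixed [Finite A] [Nonempty A] {N m : ℕ} [NeZero m] (hN : 0 < N)
    (q q' : A → ZMod m × Fin (N + 1)) : Intermixed {w : List A | w.foldl (pr m N) q = q'} := by
  have h := Intermixed.iInter (fun a => co_intermixed (A := A) hN a (q a) (q' a))
  convert h using 1
  ext w
  simp only [Set.mem_setOf_eq, Set.mem_iInter, pr_foldl]
  exact funext_iff

end Pool.Agent.Work.MP_47bae8_ab
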