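import Pool.Agent.Work.MP_47bae8_ab.Aut

set_option autoImplicit false

namespace Pool.Agent.Work.MP_47bae8_ab

open Pool.Agent.Work.MP_47bae8_lc

variable {A : Type}

/-! ### Counter-free automata with a finite invariant set of states -/

theorem SF.of_cf' {Q : Type} [Finite A] {δ : Q → A → Q} (S : Set Q) (hS : S.Finite)
    (hδ : ∀ q ∈ S, ∀ a, δ q a ∈ S)
    (h : ∀ (w : List A) (n : ℕ) (q : Q), q ∈ S → 0 < n → (fun q => w.foldl δ q)^[n] q = q →
      w.foldl δ q = q) {q : Q} (hq : q ∈ S) (X : Set Q) :
    SF {w : List A | w.foldl δ q ∈ X} := by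
  have := hS.to_subtype
  let δ' : S → A → S := fun q a => ⟨δ q.1 a, hδ _ q.2 a⟩
  have h1 : ∀ (w : List A) (q : S), (w.foldl δ' q).1 = w.foldl δ q.1 := by
    intro w
    induction w with
    | nil => intro q; rfl
    | cons a w ih => intro q; exact ih _
  have h2 : ∀ (w : List A) (n : ℕ) (q : S),
      ((fun q => w.foldl δ' q)^[n] q).1 = (fun q => w.foldl δ q)^[n] q.1 := by
    intro w n
    induction n with
    | zero => intro q; rfl
    | succ n ih =>
      intro q
      rw [Function.iterate_succ_apply, Function.iterate_succ_apply, ih, h1]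
  have hcf : CF δ' := by
    intro w n q hn hq
    apply Subtype.ext
    rw [h1]
    refine h w n q.1 q.2 hn ?_
    rw [← h2, hq]
  have := SF.of_cf hcf ⟨q, hq⟩ {s | s.1 ∈ X}
  convert this using 1
  ext w
  simp only [Set.mem_setOf_eq, h1]

/-! ### Automata that follow the length of the current run of a letter -/

variable [DecidableEq A]

/-- The automaton with states `(j, T)`: `T` is the length of the current run of the letter `a`,
bounded by `B`, and at each other letter the label `j` is updated by the partial function `f`. -/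
def vd (B : ℕ) (f : ℕ → ℕ → Option ℕ) (a : A) : Option (ℕ × ℕ) → A → Option (ℕ × ℕ)
  | none, _ => none
  | some (j, T), x => if x = a then (if T + 1 < B then some (j, T + 1) else none)
      else (f j T).map (fun j' => (j', 0))

lemma vd_none (B : ℕ) (f : ℕ → ℕ → Option ℕ) (a : A) (w : List A) :
    w.foldl (vd B f a) none = none := by
  induction w with
  | nil => rfl
  | cons x w ih => exact ih

lemma vd_a {B : ℕ} {f : ℕ → ℕ → Option ℕ} {a : A} {j T : ℕ} (h : T + 1 < B) :
    vd B f a (some (j, T)) a = some (j, T + 1) := by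
  simp [vd, h]

lemma vd_a' {B : ℕ} {f : ℕ → ℕ → Option ℕ} {a : A} {j T : ℕ} (h : ¬ T + 1 < B) :
    vd B f a (some (j, T)) a = none := by
  simp [vd, h]

lemma vd_b {B : ℕ} {f : ℕ → ℕ → Option ℕ} {a b : A} {j T : ℕ} (h : b ≠ a) :
    vd B f a (some (j, T)) b = (f j T).map (fun j' => (j', 0)) := by
  simp [vd, h]

/-- the evolution of the second component -/
def gT (a : A) (T : ℕ) (x : A) : ℕ := if x = a then T + 1 else 0

lemma gT_cases (a : A) (w : List A) :
    (∀ T, w.foldl (gT a) T = T + w.length) ∨ (∃ t, ∀ T, w.foldl (gT a) T = t) := by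
  induction w with
  | nil => left; intro T; rfl
  | cons x w ih =>
    by_cases hx : x = a
    · rcases ih with h | ⟨t, h⟩
      · left
        intro T
        simp only [List.foldl_cons, gT, hx, if_true, h, List.length_cons]
        omega
      · right
        exact ⟨t, fun T => by simp only [List.foldl_cons, h]⟩
    · right
      exact ⟨w.foldl (gT a) 0, fun T => by simp only [List.foldl_cons, gT, hx, if_false]⟩

lemma vd_gT {B : ℕ} {f : ℕ → ℕ → Option ℕ} {a : A} (w : List A) {j T j' T' : ℕ}
    (h : w.foldl (vd B f a) (some (j, T)) = some (j', T')) : T' = w.foldl (gT a) T := by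
  induction w generalizing j T with
  | nil =>
    simp only [List.foldl_nil, Option.some.injEq, Prod.mk.injEq] at h
    exact h.2.symm
  | cons x w ih =>
    rw [List.foldl_cons] at h ⊢
    by_cases hx : x = a
    · subst hx
      by_cases hT : T + 1 < B
      · rw [vd_a hT] at h
        have := ih h
        simpa [gT] using this
      · rw [vd_a' hT, vd_none] at h
        simp at h
    · rw [vd_b hx] at h
      rcases hf : f j T with _ | j1
      · rw [hf, Option.map_none, vd_none] at h
        simp at h
      · rw [hf, Option.map_some] at h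
        have := ih h
        simpa [gT, hx] using this

lemma vd_lab {B : ℕ} {f : ℕ → ℕ → Option ℕ} {a : A}
    (hf : ∀ T j₁ j₂ j₁' j₂', j₁ ≠ j₂ → f j₁ T = some j₁' → f j₂ T = some j₂' →
      j₁' = j₁ ∧ j₂' = j₂)
    (w : List A) {j₁ j₂ T j₁' j₂' T₁' T₂' : ℕ} (hj : j₁ ≠ j₂)
    (h₁ : w.foldl (vd B f a) (some (j₁, T)) = some (j₁', T₁'))
    (h₂ : w.foldl (vd B f a) (some (j₂, T)) = some (j₂', T₂')) : j₁' = j₁ ∧ j₂' = j₂ := by
  induction w generalizing T with
  | nil =>
    simp only [List.foldl_nil, Option.some.injEq, Prod.mk.injEq] at h₁ h₂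
    exact ⟨h₁.1.symm, h₂.1.symm⟩
  | cons x w ih =>
    rw [List.foldl_cons] at h₁ h₂
    by_cases hx : x = a
    · subst hx
      by_cases hT : T + 1 < B
      · rw [vd_a hT] at h₁ h₂
        exact ih h₁ h₂
      · rw [vd_a' hT, vd_none] at h₁
        simp at h₁
    · rw [vd_b hx] at h₁ h₂
      rcases hf₁ : f j₁ T with _ | k₁
      · rw [hf₁, Option.map_none, vd_none] at h₁
        simp at h₁
      · rcases hf₂ : f j₂ T with _ | k₂
        · rw [hf₂, Option.map_none, vd_none] at h₂
          simp at h₂
        · obtain ⟨rfl, rfl⟩ := hf T j₁ j₂ k₁ k₂ hj hf₁ hf₂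
          rw [hf₁, Option.map_some] at h₁
          rw [hf₂, Option.map_some] at h₂
          exact ih h₁ h₂

lemma vd_iter_none {B : ℕ} {f : ℕ → ℕ → Option ℕ} {a : A} (w : List A) (n : ℕ) :
    (fun q => w.foldl (vd B f a) q)^[n] none = none := by
  induction n with
  | zero => rfl
  | succ n ih => rw [Function.iterate_succ_apply, vd_none, ih]

lemma vd_iter_gT {B : ℕ} {f : ℕ → ℕ → Option ℕ} {a : A} (w : List A) (n : ℕ) {j T j' T' : ℕ}
    (h : (fun q => w.foldl (vd B f a) q)^[n] (some (j, T)) = some (j', T')) :
    T' = (fun T => w.foldl (gT a) T)^[n] T := by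
  induction n generalizing j T with
  | zero =>
    simp only [Function.iterate_zero, id_eq, Option.some.injEq, Prod.mk.injEq] at h
    exact h.2.symm
  | succ n ih =>
    rw [Function.iterate_succ_apply] at h ⊢
    rcases hq : w.foldl (vd B f a) (some (j, T)) with _ | ⟨j1, T1⟩
    · rw [hq, vd_iter_none] at h
      simp at h
    · rw [hq] at h
      rw [ih h, vd_gT w hq]

lemma vd_cf {B : ℕ} {f : ℕ → ℕ → Option ℕ} {a : A}
    (hf : ∀ T j₁ j₂ j₁' j₂', j₁ ≠ j₂ → f j₁ T = some j₁' → f j₂ T = some j₂' →
      j₁' = j₁ ∧ j₂' = j₂) : CF (vd B f a) := by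
  intro w n q hn hq
  rcases q with _ | ⟨j, T⟩
  · exact vd_none _ _ _ _
  have hT := vd_iter_gT w n hq
  obtain ⟨n, rfl⟩ : ∃ k, n = k + 1 := ⟨n - 1, by omega⟩
  rcases hq1 : w.foldl (vd B f a) (some (j, T)) with _ | ⟨j1, T1⟩
  · rw [Function.iterate_succ_apply, hq1, vd_iter_none] at hq
    simp at hq
  have hT1 := vd_gT w hq1
  rcases gT_cases a w with hg | ⟨t, hg⟩
  · rcases Nat.eq_zero_or_pos w.length with h0 | h0
    · rw [List.length_eq_zero_iff] at h0
      subst h0
      exact hq1.symm
    · exfalso
      have : ∀ k T, (fun T => w.foldl (gT a) T)^[k] T = T + k * w.length := by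
        intro k
        induction k with
        | zero => intro T; simp
        | succ k ih =>
          intro T
          rw [Function.iterate_succ_apply, ih, hg]
          ring
      rw [this] at hT
      have : 0 < (n + 1) * w.length := Nat.mul_pos (by omega) h0
      omega
  · rw [Function.iterate_succ_apply', hg] at hT
    rw [hg] at hT1
    have hTT : T1 = T := by rw [hT1, hT]
    subst hTT
    by_cases hj : j1 = j
    · rw [hj]
    · rcases n with _ | n
      · simp only [zero_add, Function.iterate_one] at hq
        rw [hq1] at hq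
        exact hq
      · rw [Function.iterate_succ_apply, hq1, Function.iterate_succ_apply] at hq
        rcases hq2 : w.foldl (vd B f a) (some (j1, T1)) with _ | ⟨j2, T2⟩
        · rw [hq2, vd_iter_none] at hq
          simp at hq
        · have := vd_lab hf w (Ne.symm hj) hq1 hq2
          exact absurd this.1 hj

theorem SF.of_vd [Finite A] {B m : ℕ} {f : ℕ → ℕ → Option ℕ} {a : A}
    (hf : ∀ T j₁ j₂ j₁' j₂', j₁ ≠ j₂ → f j₁ T = some j₁' → f j₂ T = some j₂' →
      j₁' = j₁ ∧ j₂' = j₂)
    (hm : ∀ j T j', j < m → f j T = some j' → j' < m) {j T : ℕ} (hj : j < m)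
    (X : Set (Option (ℕ × ℕ))) :
    SF {w : List A | w.foldl (vd B f a) (some (j, T)) ∈ X} := by
  refine SF.of_cf' {q : Option (ℕ × ℕ) | ∀ j' T', q = some (j', T') → j' < m ∧ T' ≤ T + B} ?_ ?_ ?_
    ?_ X
  · refine Set.Finite.subset
      (((Set.finite_Iio m).prod (Set.finite_Iic (T + B))).image some |>.insert none) ?_
    rintro (_ | ⟨j', T'⟩) h
    · exact Or.inl rfl
    · exact Or.inr ⟨(j', T'), ⟨(h j' T' rfl).1, (h j' T' rfl).2⟩, rfl⟩
  · rintro (_ | ⟨j1, T1⟩) h x j' T' hq
    · simp [vd] at hq
    · obtain ⟨h1, h2⟩ := h j1 T1 rfl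
      by_cases hx : x = a
      · subst hx
        by_cases hT : T1 + 1 < B
        · rw [vd_a hT] at hq
          simp only [Option.some.injEq, Prod.mk.injEq] at hq
          omega
        · rw [vd_a' hT] at hq
          simp at hq
      · rw [vd_b hx] at hq
        rcases hf1 : f j1 T1 with _ | j2
        · rw [hf1] at hq
          simp at hq
        · rw [hf1] at hq
          simp only [Option.map_some, Option.some.injEq, Prod.mk.injEq] at hq
          have := hm j1 T1 j2 h1 hf1
          omega
  · intro w n q _ hn hq
    exact vd_cf hf w n q hn hq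
  · intro j' T' h
    simp only [Option.some.injEq, Prod.mk.injEq] at h
    omega

/-! ### Words without long runs of a letter -/

/-- The automaton that follows runs of length less than `N`. -/
def nl (N : ℕ) (a : A) : Option (ℕ × ℕ) → A → Option (ℕ × ℕ) := vd N (fun j _ => some j) a

lemma nl_sf [Finite A] (N : ℕ) (a : A) (l : ℕ) (X : Set (Option (ℕ × ℕ))) :
    SF {w : List A | w.foldl (nl N a) (some (0, l)) ∈ X} := by
  refine SF.of_vd (m := 1) ?_ ?_ (by omega) X
  · intro T j₁ j₂ j₁' j₂' _ h₁ h₂
    simp only [Option.some.injEq] at h₁ h₂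
    exact ⟨h₁.symm, h₂.symm⟩
  · intro j T j' hj h
    simp only [Option.some.injEq] at h
    omega

/-! ### The counting automaton -/

/-- The update of the counting automaton. -/
def fc (K m : ℕ) (j T : ℕ) : Option ℕ :=
  if T = 0 then some j else if T / K = j + 1 then some ((j + T) % m) else none

/-- The counting automaton. -/
def cd (K m : ℕ) (a : A) : Option (ℕ × ℕ) → A → Option (ℕ × ℕ) := vd (K * (m + 1)) (fc K m) a

lemma cd_sf [Finite A] (K : ℕ) {m : ℕ} (hm : 0 < m) (a : A) (X : Set (Option (ℕ × ℕ))) :
    SF {w : List A | w.foldl (cd K m a) (some (0, 0)) ∈ X} := by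
  refine SF.of_vd (m := m) ?_ ?_ (by omega) X
  · intro T j₁ j₂ j₁' j₂' hne h₁ h₂
    unfold fc at h₁ h₂
    by_cases hT : T = 0
    · simp only [hT, if_true, Option.some.injEq] at h₁ h₂
      exact ⟨h₁.symm, h₂.symm⟩
    · simp only [hT, if_false] at h₁ h₂
      split_ifs at h₁ h₂ with h3 h4
      omega
  · intro j T j' hj h
    unfold fc at h
    split_ifs at h with h1 h2
    · simp only [Option.some.injEq] at h
      omega
    · simp only [Option.some.injEq] at h
      rw [← h]
      exact Nat.mod_lt _ hm

lemma cd_count {K m : ℕ} {a : A} (w : List A) {j T j' T' : ℕ}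
    (h : w.foldl (cd K m a) (some (j, T)) = some (j', T')) :
    (j' + T') % m = (j + T + w.count a) % m := by
  induction w generalizing j T with
  | nil =>
    simp only [List.foldl_nil, Option.some.injEq, Prod.mk.injEq] at h
    rw [h.1, h.2]
    rfl
  | cons x w ih =>
    rw [List.foldl_cons] at h
    by_cases hx : x = a
    · subst hx
      by_cases hT : T + 1 < K * (m + 1)
      · unfold cd at h
        rw [vd_a hT] at h
        rw [ih h, List.count_cons_self]
        congr 1
        omega
      · unfold cd at h
        rw [vd_a' hT, vd_none] at h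
        simp at h
    · unfold cd at h
      rw [vd_b hx] at h
      rw [List.count_cons_of_ne hx]
      unfold fc at h
      by_cases hT : T = 0
      · rw [if_pos hT, Option.map_some] at h
        rw [ih h, hT]
      · rw [if_neg hT] at h
        split_ifs at h with h1
        · rw [Option.map_some] at h
          rw [ih h, Nat.add_zero, Nat.mod_add_mod]
        · rw [Option.map_none, vd_none] at h
          simp at h

lemma greedy {K m : ℕ} (hK : 0 < K) (hm : 0 < m) (a : A) (w : List A) (l j T : ℕ)
    (hw : w.foldl (nl K a) (some (0, l)) ≠ none) (hj : j < m) (hT : T < K * (j + 1) + l)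
    (hl : l < K) : ∃ t : List (A × Bool), t.map Prod.fst = w ∧
      (∀ x ∈ (t.filter (fun p => !p.2)).map Prod.fst, x ≠ a) ∧
      ((t.filter (fun p => p.2)).map Prod.fst).foldl (cd K m a) (some (j, T)) ≠ none := by
  induction w generalizing l j T with
  | nil => exact ⟨[], rfl, by simp, by simp⟩
  | cons x w ih =>
    rw [List.foldl_cons] at hw
    by_cases hx : x = a
    · subst hx
      by_cases hl1 : l + 1 < K
      · have e1 : nl K x (some (0, l)) x = some (0, l + 1) := vd_a hl1
        rw [e1] at hw
        have hB : T + 1 < K * (m + 1) := by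
          have : K * (j + 1) + K ≤ K * (m + 1) := by
            rw [← Nat.mul_succ]
            exact Nat.mul_le_mul_left K (by omega)
          omega
        obtain ⟨t, h1, h2, h3⟩ := ih (l + 1) j (T + 1) hw hj (by omega) hl1
        refine ⟨(x, true) :: t, by simp [h1], by simpa using h2, ?_⟩
        have e2 : cd K m x (some (j, T)) x = some (j, T + 1) := vd_a hB
        simpa [e2] using h3
      · have e1 : nl K x (some (0, l)) x = none := vd_a' hl1
        rw [e1] at hw
        exact absurd (vd_none _ _ _ _) hw
    · have e1 : nl K a (some (0, l)) x = some (0, 0) := vd_b hx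
      rw [e1] at hw
      have hpos : ∀ i, 0 < K * (i + 1) := fun i => Nat.mul_pos hK (by omega)
      by_cases hT0 : T = 0
      · obtain ⟨t, h1, h2, h3⟩ := ih 0 j 0 hw hj (by have := hpos j; omega) hK
        refine ⟨(x, true) :: t, by simp [h1], by simpa using h2, ?_⟩
        have e2 : cd K m a (some (j, T)) x = some (j, 0) := by
          unfold cd
          rw [vd_b hx]
          simp [fc, hT0]
        simpa [e2] using h3
      · by_cases hTK : T / K = j + 1
        · obtain ⟨t, h1, h2, h3⟩ := ih 0 ((j + T) % m) 0 hw (Nat.mod_lt _ hm)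
            (by have := hpos ((j + T) % m); omega) hK
          refine ⟨(x, true) :: t, by simp [h1], by simpa using h2, ?_⟩
          have e2 : cd K m a (some (j, T)) x = some ((j + T) % m, 0) := by
            unfold cd
            rw [vd_b hx]
            simp [fc, hT0, hTK]
          simpa [e2] using h3
        · have hTj : T < K * (j + 1) + 0 := by
            by_contra hge
            apply hTK
            have h1 : j + 1 ≤ T / K := by
              rw [Nat.le_div_iff_mul_le hK]
              rw [Nat.mul_comm]
              omega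
            have h2 : T / K < j + 2 := by
              rw [Nat.div_lt_iff_lt_mul hK]
              have : (j + 2) * K = K * (j + 1) + K := by ring
              omega
            omega
          obtain ⟨t, h1, h2, h3⟩ := ih 0 j T hw hj hTj hK
          refine ⟨(x, false) :: t, by simp [h1], ?_, by simpa using h3⟩
          intro y hy
          simp only [Bool.not_false, List.filter_cons_of_pos, List.map_cons, List.mem_cons] at hy
          rcases hy with rfl | hy
          · exact hx
          · exact h2 y hy

lemma count_split (a : A) (t : List (A × Bool)) :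
    (t.map Prod.fst).count a = ((t.filter (fun p => p.2)).map Prod.fst).count a +
      ((t.filter (fun p => !p.2)).map Prod.fst).count a := by
  induction t with
  | nil => rfl
  | cons p t ih =>
    rcases p with ⟨x, _ | _⟩
    · simp only [List.map_cons, Bool.false_eq_true, not_false_eq_true, List.filter_cons_of_neg,
        Bool.not_false, List.filter_cons_of_pos, List.count_cons, ih]
      omega
    · simp only [List.map_cons, List.filter_cons_of_pos, Bool.not_true, Bool.false_eq_true,
        not_false_eq_true, List.filter_cons_of_neg, List.count_cons, ih]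
      omega

/-- Modular counting of a letter in the words without long runs of this letter is intermixed. -/
theorem count_intermixed [Finite A] {K m : ℕ} (hK : 0 < K) (hm : 0 < m) (a : A) (r : ℕ) :
    Intermixed ({w : List A | w.foldl (nl K a) (some (0, 0)) ≠ none} ∩
      {w | w.count a % m = r}) := by
  have : Nonempty A := ⟨a⟩
  have h1 : SF {w : List A | w.foldl (nl K a) (some (0, 0)) ≠ none} :=
    nl_sf K a 0 {q | q ≠ none}
  have h2 := cd_sf (A := A) K hm a {q | ∃ j T, q = some (j, T) ∧ (j + T) % m = r}
  have h3 := SF.star {x : A | x ≠ a}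
  have h4 := Intermixed.shuffle h2.intermixed h3.intermixed
  have h5 : Intermixed ({w : List A | w.foldl (nl K a) (some (0, 0)) ≠ none} ∩
      shuffle {w : List A | w.foldl (cd K m a) (some (0, 0)) ∈
        {q | ∃ j T, q = some (j, T) ∧ (j + T) % m = r}} {w : List A | ∀ x ∈ w, x ∈ {x | x ≠ a}}) := by
    have := (h1.intermixed.compl.union h4.compl).compl
    rwa [Set.compl_union, compl_compl, compl_compl] at this
  convert h5 using 1
  ext w
  simp only [Set.mem_inter_iff, Set.mem_setOf_eq]
  refine and_congr_right fun hw => ?_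
  constructor
  · intro hc
    obtain ⟨t, h6, h7, h8⟩ := greedy hK hm a w 0 0 0 hw hm (by simpa using hK) hK
    refine ⟨t, h6, ?_, h7⟩
    rcases hq : ((t.filter (fun p => p.2)).map Prod.fst).foldl (cd K m a) (some (0, 0)) with
      _ | ⟨j, T⟩
    · exact absurd hq h8
    · refine ⟨j, T, hq, ?_⟩
      rw [cd_count _ hq]
      have h9 := count_split a t
      rw [h6, List.count_eq_zero_of_not_mem (l := (t.filter (fun p => !p.2)).map Prod.fst)
        (fun h => h7 a h rfl)] at h9
      rw [← hc, h9]
      simp
  · rintro ⟨t, h6, ⟨j, T, hq, hjT⟩, h7⟩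
    rw [cd_count _ hq] at hjT
    have h9 := count_split a t
    rw [h6, List.count_eq_zero_of_not_mem (l := (t.filter (fun p => !p.2)).map Prod.fst)
      (fun h => h7 a h rfl)] at h9
    rw [h9, ← hjT]
    simp

end Pool.Agent.Work.MP_47bae8_ab
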