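import Pool.Agent.Work.MP_47bae8_ab.Casc

set_option autoImplicit false

open scoped Nat

namespace Pool.Agent.Work.MP_47bae8_ab

open Pool.Agent.Work.MP_47bae8_lc

variable {A : Type} [DecidableEq A]

lemma CSF.nonempty {L : Set (List A)} (h : CSF L) : Nonempty A := by
  induction h with
  | letter a => exact ⟨a⟩
  | count a => exact ⟨a⟩
  | compl _ ih => exact ih
  | union _ _ ih _ => exact ih
  | conc _ _ ih _ => exact ih

lemma η_ofList (L : Set (List A)) (w : List A) :
    η L (FreeMonoid.ofList w) = (w.map (fun a => η L (FreeMonoid.of a))).prod := by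
  induction w with
  | nil => exact map_one _
  | cons a w ih =>
    rw [List.map_cons, List.prod_cons, ← ih, ← map_mul]
    rfl

theorem CSF.intermixed [Finite A] {L : Set (List A)} (h : CSF L) (h1 : Satisfies L idOne) :
    Intermixed L := by
  have := h.nonempty
  obtain ⟨m, hm, K, hK, hL⟩ := h.rep
  have : NeZero m := ⟨hm.ne'⟩
  obtain ⟨M, _, _, N0, hN0, ψ, X, hX⟩ := hK.ap
  set e := (Nat.card (Syn L))! with he
  have hf : ∀ (a : A) (k : ℕ), e + 1 ≤ k + 1 →
      (η L (FreeMonoid.of a)) ^ (k + 1) = (η L (FreeMonoid.of a)) ^ k := by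
    intro a k hk
    have h2 : (η L (FreeMonoid.of a)) ^ (e + 1) = (η L (FreeMonoid.of a)) ^ e := by
      rw [pow_succ]
      exact h1 (fun _ => η L (FreeMonoid.of a)) (fun _ => Or.inr ⟨a, rfl⟩)
    exact pow_stab' h2 (by omega) (by omega)
  let q0 : A → ZMod m × Fin (e + 1 + 1) := fun _ => (0, 0)
  have h2 : ∀ w : List A, w ∈ L ↔ adj m (e + 1) q0 w ∈ L := by
    intro w
    have h3 := adj_syn (m := m) (N := e + 1) (fun a => η L (FreeMonoid.of a)) hf w q0 1
      (fun a => ⟨1, by simp [q0]⟩)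
    rw [one_mul, one_mul, ← η_ofList, ← η_ofList] at h3
    have h4 := (Con.eq _).1 h3 [] []
    simpa using h4
  have h3 := SF.of_aperiodic (B := A × (A → ZMod m × Fin (e + 1 + 1))) hN0
    (fun p => ((lb (cnt m) (fun b => (p.2 b).1) (out m (e + 1) p.2 p.1)).map ψ).prod) X
  have h4 := cascade (pr_intermixed (A := A) (N := e + 1) (m := m) (Nat.succ_pos e)) h3 q0
  convert h4 using 1
  ext w
  rw [h2 w, hL, hX, Set.mem_setOf_eq, Set.mem_setOf_eq, ← adj_lb]
  rfl

end Pool.Agent.Work.MP_47bae8_ab
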