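import Pool.Agent.Work.MP_47bae8_lc.Ids

set_option autoImplicit false

namespace Pool.Agent.Work.MP_47bae8_ab

open Pool.Agent.Work.MP_47bae8_lc

/-- The star-free languages over the alphabet `A`. -/
inductive SF {A : Type} : Set (List A) → Prop
  | empty : SF ∅
  | letter (a : A) : SF {[a]}
  | compl {L : Set (List A)} : SF L → SF Lᶜ
  | union {L M : Set (List A)} : SF L → SF M → SF (L ∪ M)
  | conc {L M : Set (List A)} : SF L → SF M → SF (conc L M)

variable {A : Type}

lemma mem_conc {L M : Set (List A)} {w : List A} :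
    w ∈ conc L M ↔ ∃ u ∈ L, ∃ v ∈ M, w = u ++ v := Iff.rfl

lemma SF.univ : SF (Set.univ : Set (List A)) := by
  have := (SF.empty (A := A)).compl
  rwa [Set.compl_empty] at this

lemma SF.inter {L M : Set (List A)} (h : SF L) (h' : SF M) : SF (L ∩ M) := by
  have := (h.compl.union h'.compl).compl
  rwa [Set.compl_union, compl_compl, compl_compl] at this

lemma SF.biUnion {ι : Type*} (s : Finset ι) {f : ι → Set (List A)} (h : ∀ i ∈ s, SF (f i)) :
    SF (⋃ i ∈ s, f i) := by
  classical
  induction s using Finset.induction with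
  | empty => simpa using SF.empty
  | insert i s hi ih =>
    rw [Finset.set_biUnion_insert]
    exact (h i (Finset.mem_insert_self i s)).union
      (ih (fun j hj => h j (Finset.mem_insert_of_mem hj)))

lemma SF.iUnion {ι : Type*} [Finite ι] {f : ι → Set (List A)} (h : ∀ i, SF (f i)) :
    SF (⋃ i, f i) := by
  classical
  have := Fintype.ofFinite ι
  have := SF.biUnion Finset.univ (f := f) (fun i _ => h i)
  simpa using this

lemma SF.ite {p : Prop} {L : Set (List A)} (h : SF L) : SF {w | p ∧ w ∈ L} := by
  by_cases hp : p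
  · simpa [hp] using h
  · simpa [hp] using SF.empty

lemma SF.iUnionP {ι : Type*} [Finite ι] {p : ι → Prop} {f : ι → Set (List A)}
    (h : ∀ i, p i → SF (f i)) : SF {w | ∃ i, p i ∧ w ∈ f i} := by
  have : SF (⋃ i, {w | p i ∧ w ∈ f i}) := by
    apply SF.iUnion
    intro i
    by_cases hp : p i
    · exact SF.ite (h i hp)
    · simpa [hp] using SF.empty
  convert this using 1
  ext w
  simp

lemma SF.letters [Finite A] (S : Set A) : SF {w : List A | ∃ a ∈ S, w = [a]} := by
  have : SF {w : List A | ∃ a : A, a ∈ S ∧ w ∈ ({[a]} : Set (List A))} :=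
    SF.iUnionP (fun a _ => SF.letter a)
  exact this

lemma SF.nil [Finite A] : SF ({[]} : Set (List A)) := by
  have := ((SF.letters (Set.univ : Set A)).conc SF.univ).compl
  convert this using 1
  ext w
  simp only [Set.mem_singleton_iff, Set.mem_compl_iff, mem_conc, Set.mem_univ, true_and,
    Set.mem_setOf_eq]
  constructor
  · rintro rfl ⟨u, ⟨a, rfl⟩, v, h⟩
    simp at h
  · intro h
    rcases w with _ | ⟨a, w⟩
    · rfl
    · exact absurd ⟨[a], ⟨a, rfl⟩, w, rfl⟩ h

/-- words over the letters in `S` -/
lemma SF.star [Finite A] (S : Set A) : SF {w : List A | ∀ x ∈ w, x ∈ S} := by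
  have := (SF.univ.conc ((SF.letters (Sᶜ)).conc SF.univ)).compl
  convert this using 1
  ext w
  simp only [Set.mem_setOf_eq, Set.mem_compl_iff, mem_conc, Set.mem_univ, true_and]
  constructor
  · rintro h ⟨u, v, ⟨z, ⟨a, ha, rfl⟩, y, rfl⟩, rfl⟩
    exact ha (h a (by simp))
  · intro h x hx
    by_contra hxS
    obtain ⟨u, v, rfl⟩ := List.append_of_mem hx
    exact h ⟨u, x :: v, ⟨[x], ⟨x, hxS, rfl⟩, v, rfl⟩, rfl⟩

lemma SF.cons {L : Set (List A)} (a : A) (h : SF L) : SF {w | ∃ v ∈ L, w = a :: v} := by
  have := (SF.letter a).conc h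
  convert this using 1
  ext w
  simp [mem_conc]

lemma SF.starts (a : A) : SF {w : List A | ∃ v, w = a :: v} := by
  have := SF.cons a (SF.univ)
  simpa using this

lemma SF.intermixed [Nonempty A] {L : Set (List A)} (h : SF L) : Intermixed L := by
  induction h with
  | empty =>
    obtain ⟨a⟩ := ‹Nonempty A›
    have := ((Intermixed.letter a).compl.union (Intermixed.letter a)).compl
    rwa [Set.compl_union_self, Set.compl_univ] at this
  | letter a => exact .letter a
  | compl _ ih => exact .compl ih
  | union _ _ ih ih' => exact .union ih ih'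
  | conc _ _ ih ih' => exact .conc ih ih'

/-- inverse image under a letter-to-letter map -/
lemma SF.comap {B : Type} [Finite B] (g : B → A) {L : Set (List A)} (h : SF L) :
    SF {w : List B | w.map g ∈ L} := by
  induction h with
  | empty => simpa using SF.empty
  | letter a =>
    have := SF.letters {b : B | g b = a}
    convert this using 1
    ext w
    simp only [Set.mem_setOf_eq, Set.mem_singleton_iff]
    rcases w with _ | ⟨b, _ | ⟨c, w⟩⟩ <;> simp
  | compl _ ih => exact ih.compl
  | union _ _ ih ih' => exact ih.union ih'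
  | @conc L M _ _ ih ih' =>
    have := ih.conc ih'
    convert this using 1
    ext w
    simp only [Set.mem_setOf_eq, mem_conc]
    constructor
    · rintro ⟨u, hu, v, hv, h⟩
      obtain ⟨u', v', rfl, rfl, rfl⟩ := List.map_eq_append_iff.1 h
      exact ⟨u', hu, v', hv, rfl⟩
    · rintro ⟨u, hu, v, hv, rfl⟩
      exact ⟨_, hu, _, hv, by simp⟩

end Pool.Agent.Work.MP_47bae8_ab
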