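import Pool.Agent.Work.MP_47bae8_ab.SF

set_option autoImplicit false

namespace Pool.Agent.Work.MP_47bae8_ab

open Pool.Agent.Work.MP_47bae8_lc

/-! ### Local divisors -/

/-- The local divisor of a monoid at `e`. -/
def LD {M : Type} [Monoid M] (e : M) : Type :=
  {x : M // (∃ u, x = e * u) ∧ ∃ v, x = v * e}

namespace LD

variable {M : Type} [Monoid M] {e : M}

/-- The product of the local divisor: `(v e) ∘ (e u) = v e u`. -/
noncomputable def mul (x y : LD e) : LD e :=
  ⟨x.2.2.choose * y.1, by
    obtain ⟨u, hu⟩ := x.2.1
    obtain ⟨u', hu'⟩ := y.2.1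
    obtain ⟨v', hv'⟩ := y.2.2
    have hc := x.2.2.choose_spec
    refine ⟨⟨u * u', ?_⟩, ⟨x.2.2.choose * v', ?_⟩⟩
    · rw [hu', ← mul_assoc, ← hc, hu, mul_assoc]
    · rw [hv', mul_assoc]⟩

lemma mul_val (x y : LD e) {v : M} (h : x.1 = v * e) : (mul x y).1 = v * y.1 := by
  obtain ⟨u', hu'⟩ := y.2.1
  have hc := x.2.2.choose_spec
  change x.2.2.choose * y.1 = v * y.1
  rw [hu', ← mul_assoc, ← hc, h, mul_assoc]

/-- The neutral element. -/
def one' : LD e := ⟨e, ⟨1, (mul_one e).symm⟩, 1, (one_mul e).symm⟩

noncomputable instance : Monoid (LD e) where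
  mul := mul
  one := one'
  mul_assoc := by
    intro x y z
    apply Subtype.ext
    obtain ⟨v, hv⟩ := x.2.2
    obtain ⟨v', hv'⟩ := y.2.2
    have h1 : (mul x y).1 = (v * v') * e := by rw [mul_val x y hv, hv', mul_assoc]
    change (mul (mul x y) z).1 = (mul x (mul y z)).1
    rw [mul_val _ _ h1, mul_val _ _ hv, mul_val _ _ hv', mul_assoc]
  one_mul := by
    intro x
    apply Subtype.ext
    change (mul one' x).1 = x.1
    rw [mul_val one' x (v := 1) (one_mul e).symm, one_mul]
  mul_one := by
    intro x
    apply Subtype.ext
    obtain ⟨v, hv⟩ := x.2.2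
    change (mul x one').1 = x.1
    rw [mul_val x one' hv]
    exact hv.symm

lemma mul_val' (x y : LD e) {v : M} (h : x.1 = v * e) : (x * y).1 = v * y.1 := mul_val x y h

lemma one_val : (1 : LD e).1 = e := rfl

lemma pow_val (x : LD e) {v : M} (h : x.1 = v * e) (k : ℕ) : (x ^ k).1 = v ^ k * e := by
  induction k with
  | zero => rw [pow_zero, one_val, pow_zero, one_mul]
  | succ k ih => rw [pow_succ', mul_val' _ _ h, ih, ← mul_assoc, ← pow_succ']

instance [Finite M] : Finite (LD e) := Subtype.finite

lemma ap {N : ℕ} (hN : ∀ x : M, x ^ (N + 1) = x ^ N) (x : LD e) : x ^ (N + 1) = x ^ N := by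
  obtain ⟨v, hv⟩ := x.2.2
  apply Subtype.ext
  rw [pow_val x hv, pow_val x hv, hN]

lemma card_lt [Finite M] {N : ℕ} (hN : ∀ x : M, x ^ (N + 1) = x ^ N) (he : e ≠ 1) :
    Nat.card (LD e) < Nat.card M := by
  have : Set.ncard {x : M | (∃ u, x = e * u) ∧ ∃ v, x = v * e} < Nat.card M := by
    rw [← Set.ncard_univ]
    apply Set.ncard_lt_ncard _ Set.finite_univ
    refine ⟨Set.subset_univ _, fun h => he ?_⟩
    obtain ⟨⟨u, hu⟩, -⟩ := h (Set.mem_univ (1 : M))
    have h2 : ∀ n : ℕ, e ^ n * u ^ n = 1 := by
      intro n
      induction n with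
      | zero => simp
      | succ n ih => rw [pow_succ, pow_succ', mul_assoc, ← mul_assoc e, ← hu, one_mul, ih]
    have h3 : e ^ (N + 1) * u ^ N = e := by
      rw [pow_succ', mul_assoc, h2, mul_one]
    rw [hN, h2] at h3
    exact h3.symm
  exact this

end LD

/-! ### Cutting a word at the occurrences of a letter -/

section blk

variable {B M : Type} [Monoid M] [DecidableEq B] (φ : B → M) (c : B)

/-- The value of the part before the first `c`, and the values of the parts after each `c`. -/
def blk : List B → M × List M
  | [] => (1, [])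
  | x :: w => if x = c then (1, (blk w).1 :: (blk w).2) else (φ x * (blk w).1, (blk w).2)

lemma blk_c (w : List B) : blk φ c (c :: w) = (1, (blk φ c w).1 :: (blk φ c w).2) := by
  simp [blk]

lemma blk_ne {x : B} (h : x ≠ c) (w : List B) :
    blk φ c (x :: w) = (φ x * (blk φ c w).1, (blk φ c w).2) := by
  simp [blk, h]

/-- Words which are empty or start with `c`. -/
def St (w : List B) : Prop := w = [] ∨ ∃ v, w = c :: v

lemma blk_St {w : List B} (h : St c w) : (blk φ c w).1 = 1 := by
  rcases h with rfl | ⟨v, rfl⟩
  · rfl
  · rw [blk_c]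

lemma blk_append {w v : List B} (hv : St c v) : blk φ c (w ++ v) =
    ((blk φ c w).1, (blk φ c w).2 ++ (blk φ c v).2) := by
  induction w with
  | nil =>
    rw [List.nil_append]
    exact Prod.ext (blk_St φ c hv) (by simp [blk])
  | cons x w ih =>
    rw [List.cons_append]
    by_cases hx : x = c
    · subst hx
      rw [blk_c, blk_c, ih]
      rfl
    · rw [blk_ne φ c hx, blk_ne φ c hx, ih]

lemma blk_split (w : List B) : ∀ (t₁ t₂ : List M), (blk φ c w).2 = t₁ ++ t₂ →
    ∃ w₁ w₂, w = w₁ ++ w₂ ∧ St c w₂ ∧ blk φ c w₁ = ((blk φ c w).1, t₁) ∧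
      (blk φ c w₂).2 = t₂ := by
  induction w with
  | nil =>
    intro t₁ t₂ h
    have h' : t₁ = [] ∧ t₂ = [] := by
      have : ([] : List M) = t₁ ++ t₂ := h
      simpa using this.symm
    obtain ⟨rfl, rfl⟩ := h'
    exact ⟨[], [], rfl, Or.inl rfl, rfl, rfl⟩
  | cons x w ih =>
    intro t₁ t₂ h
    by_cases hx : x = c
    · subst hx
      rw [blk_c] at h ⊢
      rcases t₁ with _ | ⟨t, t₁⟩
      · refine ⟨[], x :: w, rfl, Or.inr ⟨w, rfl⟩, rfl, ?_⟩
        rw [blk_c]
        exact h
      · simp only [List.cons_append, List.cons.injEq] at h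
        obtain ⟨w₁, w₂, rfl, h2, h3, h4⟩ := ih t₁ t₂ h.2
        refine ⟨x :: w₁, w₂, rfl, h2, ?_, h4⟩
        rw [blk_c, h3]
        simp only
        rw [h.1]
    · rw [blk_ne φ c hx] at h ⊢
      obtain ⟨w₁, w₂, rfl, h2, h3, h4⟩ := ih t₁ t₂ h
      refine ⟨x :: w₁, w₂, rfl, h2, ?_, h4⟩
      rw [blk_ne φ c hx, h3]

lemma blk_pre (w : List B) : ∃ u v, w = u ++ v ∧ (∀ x ∈ u, x ≠ c) ∧ St c v ∧
    blk φ c w = ((u.map φ).prod, (blk φ c v).2) := by
  induction w with
  | nil => exact ⟨[], [], rfl, by simp, Or.inl rfl, rfl⟩
  | cons x w ih =>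
    by_cases hx : x = c
    · subst hx
      refine ⟨[], x :: w, rfl, by simp, Or.inr ⟨w, rfl⟩, ?_⟩
      exact Prod.ext (by rw [blk_c]; rfl) rfl
    · obtain ⟨u, v, rfl, h1, h2, h3⟩ := ih
      refine ⟨x :: u, v, rfl, ?_, h2, ?_⟩
      · intro y hy
        rcases List.mem_cons.1 hy with rfl | hy
        · exact hx
        · exact h1 y hy
      · rw [blk_ne φ c hx, h3, List.map_cons, List.prod_cons]

lemma blk_noc {u : List B} (h : ∀ x ∈ u, x ≠ c) : blk φ c u = ((u.map φ).prod, []) := by
  induction u with
  | nil => rfl
  | cons x u ih =>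
    rw [blk_ne φ c (h x (by simp)), ih (fun y hy => h y (by simp [hy])), List.map_cons,
      List.prod_cons]

/-- the value of a word from its parts -/
lemma prod_blk (w : List B) : (w.map φ).prod =
    (blk φ c w).1 * ((blk φ c w).2.map (fun t => φ c * t)).prod := by
  induction w with
  | nil => simp [blk]
  | cons x w ih =>
    by_cases hx : x = c
    · subst hx
      rw [blk_c, List.map_cons, List.prod_cons, ih]
      simp [mul_assoc]
    · rw [blk_ne φ c hx, List.map_cons, List.prod_cons, ih, mul_assoc]

end blk

/-- The map from `M` to the local divisor. -/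
def gLD {M : Type} [Monoid M] (e : M) (t : M) : LD e :=
  ⟨e * t * e, ⟨t * e, by rw [mul_assoc]⟩, ⟨e * t, rfl⟩⟩

lemma prod_gLD {M : Type} [Monoid M] (e : M) (ts : List M) :
    ((ts.map (gLD e)).prod).1 = (ts.map (fun t => e * t)).prod * e := by
  induction ts with
  | nil => simp [LD.one_val]
  | cons t ts ih =>
    rw [List.map_cons, List.prod_cons, List.map_cons, List.prod_cons,
      LD.mul_val' (v := e * t) _ _ rfl, ih]
    simp only [mul_assoc]

/-- Schützenberger's theorem (proof with local divisors, after Diekert and Kufleitner), for words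
over a subset `S` of the letters. -/
lemma schutz_aux (n : ℕ) : ∀ (M : Type) [Monoid M] [Finite M], Nat.card M ≤ n →
    ∀ N : ℕ, (∀ x : M, x ^ (N + 1) = x ^ N) → ∀ (B : Type) [Finite B] (φ : B → M) (k : ℕ)
    (S : Finset B), S.card ≤ k → ∀ p : M,
    SF {w : List B | (∀ x ∈ w, x ∈ S) ∧ (w.map φ).prod = p} := by
  classical
  induction n with
  | zero =>
    intro M _ _ hM
    exact absurd (Nat.le_zero.1 hM) (Nat.card_pos (α := M)).ne'
  | succ n ihn =>
    intro M _ _ hM N hN B _ φ k
    induction k with
    | zero =>
      intro S hS p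
      have hS' : S = ∅ := Finset.card_eq_zero.1 (Nat.le_zero.1 hS)
      subst hS'
      have h1 : SF {w : List B | (1 : M) = p ∧ w ∈ ({[]} : Set (List B))} := SF.ite SF.nil
      convert h1 using 1
      ext w
      simp only [Finset.notMem_empty, imp_false, Set.mem_setOf_eq, Set.mem_singleton_iff]
      constructor
      · rintro ⟨h, h'⟩
        have : w = [] := List.eq_nil_iff_forall_not_mem.2 h
        subst this
        exact ⟨by simpa using h', rfl⟩
      · rintro ⟨h, rfl⟩
        exact ⟨by simp, by simpa using h⟩
    | succ k ihk =>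
      intro S hS p
      by_cases hall : ∀ x ∈ S, φ x = 1
      · have h1 : SF {w : List B | (1 : M) = p ∧ w ∈ {w : List B | ∀ x ∈ w, x ∈ (S : Set B)}} :=
          SF.ite (SF.star _)
        convert h1 using 1
        ext w
        simp only [Set.mem_setOf_eq, Finset.mem_coe]
        have h2 : (∀ x ∈ w, x ∈ S) → (w.map φ).prod = 1 := by
          intro h
          apply List.prod_eq_one
          intro m hm
          obtain ⟨x, hx, rfl⟩ := List.mem_map.1 hm
          exact hall x (h x hx)
        constructor
        · rintro ⟨h, h'⟩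
          exact ⟨by rw [← h', h2 h], h⟩
        · rintro ⟨h, h'⟩
          exact ⟨h', by rw [h2 h', h]⟩
      · push Not at hall
        obtain ⟨c, hcS, hc⟩ := hall
        have hF : ∀ t : M, SF {w : List B | (∀ x ∈ w, x ∈ S.erase c) ∧ (w.map φ).prod = t} := by
          intro t
          apply ihk
          rw [Finset.card_erase_of_mem hcS]
          omega
        have hlt := LD.card_lt (e := φ c) hN hc
        -- languages of the local divisor
        have hG : ∀ x : LD (φ c), SF {ts : List M | (ts.map (gLD (φ c))).prod = x} := by
          intro x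
          have := Fintype.ofFinite M
          have h := ihn (LD (φ c)) (by omega) N (LD.ap hN) M (gLD (φ c)) (Fintype.card M)
            Finset.univ (le_of_eq rfl) x
          simpa using h
        have hPi : ∀ q : M, SF {ts : List M | (ts.map (fun t => φ c * t)).prod = q} := by
          intro q
          have h1 : SF {ts : List M | (1 : M) = q ∧ ts ∈ ({[]} : Set (List M))} := SF.ite SF.nil
          have h2 : SF {ts : List M | ∃ i : LD (φ c) × M, i.1.1 * i.2 = q ∧
              ts ∈ conc {ts : List M | (ts.map (gLD (φ c))).prod = i.1} {[i.2]}} :=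
            SF.iUnionP (fun i _ => (hG i.1).conc (SF.letter i.2))
          have h3 := h1.union h2
          convert h3 using 1
          ext ts
          simp only [Set.mem_setOf_eq, Set.mem_union, Set.mem_singleton_iff, mem_conc, Prod.exists]
          constructor
          · intro h
            rcases List.eq_nil_or_concat ts with rfl | ⟨ts', t, rfl⟩
            · left
              exact ⟨by simpa using h, rfl⟩
            · right
              refine ⟨(ts'.map (gLD (φ c))).prod, t, ?_, ts', rfl, [t], rfl, by simp⟩
              rw [prod_gLD]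
              simpa [mul_assoc] using h
          · rintro (⟨h, rfl⟩ | ⟨x, t, h, ts', h', v, rfl, rfl⟩)
            · simpa using h
            · rw [← h', prod_gLD] at h
              simpa [mul_assoc] using h
        -- the inverse of the block map
        have hV : ∀ K : Set (List M), SF K →
            SF {w : List B | (∀ x ∈ w, x ∈ S) ∧ St c w ∧ (blk φ c w).2 ∈ K} := by
          have hbase : SF {w : List B | (∀ x ∈ w, x ∈ S) ∧ St c w} := by
            have h1 := (SF.star (S : Set B)).inter (SF.nil.union (SF.starts c))
            exact h1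
          intro K hK
          induction hK with
          | empty => simpa using SF.empty
          | letter t =>
            have h1 := SF.cons c (hF t)
            convert h1 using 1
            ext w
            simp only [Set.mem_setOf_eq, Set.mem_singleton_iff]
            constructor
            · rintro ⟨h, h' | ⟨v, rfl⟩, h''⟩
              · subst h'
                simp [blk] at h''
              · rw [blk_c] at h''
                simp only [List.cons.injEq] at h''
                obtain ⟨u, v', rfl, h2, h3, h4⟩ := blk_pre φ c v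
                have h5 : v' = [] := by
                  rcases h3 with h3 | ⟨v'', rfl⟩
                  · exact h3
                  · rw [h4, blk_c] at h''
                    simp at h''
                subst h5
                refine ⟨u, ⟨?_, ?_⟩, by simp⟩
                · intro x hx
                  exact Finset.mem_erase.2 ⟨h2 x hx, h x (by simp [hx])⟩
                · rw [h4] at h''
                  exact h''.1
            · rintro ⟨v, ⟨h, h'⟩, rfl⟩
              have hvc : ∀ x ∈ v, x ≠ c := fun x hx => (Finset.mem_erase.1 (h x hx)).1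
              refine ⟨?_, Or.inr ⟨v, rfl⟩, ?_⟩
              · intro x hx
                rcases List.mem_cons.1 hx with rfl | hx
                · exact hcS
                · exact Finset.mem_of_mem_erase (h x hx)
              · rw [blk_c, blk_noc φ c hvc, h']
          | @compl K _ ih =>
            have h1 := hbase.inter ih.compl
            convert h1 using 1
            ext w
            simp only [Set.mem_setOf_eq, Set.mem_inter_iff, Set.mem_compl_iff]
            tauto
          | @union K K' _ _ ih ih' =>
            have h1 := ih.union ih'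
            convert h1 using 1
            ext w
            simp only [Set.mem_setOf_eq, Set.mem_union]
            tauto
          | @conc K K' _ _ ih ih' =>
            have h1 := ih.conc ih'
            convert h1 using 1
            ext w
            simp only [Set.mem_setOf_eq, mem_conc]
            constructor
            · rintro ⟨h, h', t₁, ht₁, t₂, ht₂, h3⟩
              obtain ⟨w₁, w₂, rfl, h4, h5, h6⟩ := blk_split φ c w t₁ t₂ h3
              have hw₁ : St c w₁ := by
                rcases w₁ with _ | ⟨x, w₁⟩
                · exact Or.inl rfl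
                · rcases h' with h' | ⟨v, h'⟩
                  · simp at h'
                  · simp only [List.cons_append, List.cons.injEq] at h'
                    exact Or.inr ⟨w₁, by rw [h'.1]⟩
              refine ⟨w₁, ⟨fun x hx => h x (by simp [hx]), hw₁, ?_⟩, w₂,
                ⟨fun x hx => h x (by simp [hx]), h4, ?_⟩, rfl⟩
              · rw [h5]; exact ht₁
              · rw [h6]; exact ht₂
            · rintro ⟨w₁, ⟨h1, h2, h3⟩, w₂, ⟨h4, h5, h6⟩, rfl⟩
              refine ⟨?_, ?_, (blk φ c w₁).2, h3, (blk φ c w₂).2, h6, ?_⟩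
              · intro x hx
                rcases List.mem_append.1 hx with hx | hx
                · exact h1 x hx
                · exact h4 x hx
              · rcases h2 with rfl | ⟨v, rfl⟩
                · simpa using h5
                · exact Or.inr ⟨v ++ w₂, rfl⟩
              · rw [blk_append φ c h5]
        -- put everything together
        have h1 : SF {w : List B | ∃ i : M × M, i.1 * i.2 = p ∧ w ∈
            conc {w : List B | (∀ x ∈ w, x ∈ S.erase c) ∧ (w.map φ).prod = i.1}
              {w : List B | (∀ x ∈ w, x ∈ S) ∧ St c w ∧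
                (blk φ c w).2 ∈ {ts : List M | (ts.map (fun t => φ c * t)).prod = i.2}}} :=
          SF.iUnionP (fun i _ => (hF i.1).conc (hV _ (hPi i.2)))
        convert h1 using 1
        ext w
        simp only [Set.mem_setOf_eq, mem_conc, Prod.exists]
        constructor
        · rintro ⟨h, h'⟩
          obtain ⟨u, v, rfl, h2, h3, h4⟩ := blk_pre φ c w
          refine ⟨(u.map φ).prod, ((blk φ c v).2.map (fun t => φ c * t)).prod, ?_, u,
            ⟨fun x hx => Finset.mem_erase.2 ⟨h2 x hx, h x (by simp [hx])⟩, rfl⟩, v,
            ⟨fun x hx => h x (by simp [hx]), h3, rfl⟩, rfl⟩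
          rw [← h', prod_blk φ c (u ++ v), h4]
        · rintro ⟨m₁, m₂, h2, u, ⟨h3, h4⟩, v, ⟨h5, h6, h7⟩, rfl⟩
          refine ⟨?_, ?_⟩
          · intro x hx
            rcases List.mem_append.1 hx with hx | hx
            · exact Finset.mem_of_mem_erase (h3 x hx)
            · exact h5 x hx
          · rw [List.map_append, List.prod_append, h4, prod_blk φ c v, blk_St φ c h6, h7, one_mul,
              h2]

/-- Schützenberger's theorem: a language recognised by a finite aperiodic monoid is star-free. -/
theorem SF.of_aperiodic {B M : Type} [Finite B] [Monoid M] [Finite M] {N : ℕ}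
    (hN : ∀ x : M, x ^ (N + 1) = x ^ N) (φ : B → M) (X : Set M) :
    SF {w : List B | (w.map φ).prod ∈ X} := by
  classical
  have := Fintype.ofFinite B
  have h1 : SF {w : List B | ∃ p : M, p ∈ X ∧ w ∈ {w : List B | (w.map φ).prod = p}} := by
    apply SF.iUnionP
    intro p _
    have h := schutz_aux (Nat.card M) M le_rfl N hN B φ (Fintype.card B) Finset.univ
      (le_of_eq rfl) p
    simpa using h
  convert h1 using 1
  ext w
  simp

end Pool.Agent.Work.MP_47bae8_ab
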